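import Pool.Agent.TH296.NC.Defs

set_option autoImplicit false

/-! NC-M6: a skew product system on an infinite torus (job for `MP_fc4783_an`). -/

open Filter Topology MeasureTheory Set
open scoped ENNReal Real

namespace Pool.Agent.TH286.NC

/-- the circle of length one -/
abbrev C1 := AddCircle (1 : ℝ)

instance probC1 : IsProbabilityMeasure (volume : Measure C1) := ⟨by
  rw [AddCircle.measure_univ]; simp⟩

/-- the standard character -/
noncomputable def ee (w : C1) : ℂ := (AddCircle.toCircle w : ℂ)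

lemma ee_add (v w : C1) : ee (v + w) = ee v * ee w := by
  simp [ee, AddCircle.toCircle_add]

lemma ee_ne (w : C1) : ee w ≠ 0 := by simp [ee]

lemma norm_ee (w : C1) : ‖ee w‖ = 1 := Circle.norm_coe _

lemma continuous_ee : Continuous ee := by
  unfold ee
  exact continuous_induced_dom.comp AddCircle.continuous_toCircle

lemma ee_coe (x : ℝ) : ee (x : C1) = Complex.exp (2 * π * Complex.I * x) := by
  rw [ee, AddCircle.toCircle_apply_mk, Circle.coe_exp]
  congr 1
  push_cast
  ring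

lemma norm_le_half (u : C1) : ‖u‖ ≤ 1/2 := by
  have := AddCircle.norm_le_half_period (1:ℝ) (x := u) one_ne_zero
  simpa using this

/-- difference of squares -/
noncomputable def dsq (t u : C1) : ℝ := ‖u + t‖^2 - ‖u‖^2

lemma abs_dsq_le (t u : C1) : |dsq t u| ≤ ‖t‖ := by
  have h1 : dsq t u = (‖u + t‖ - ‖u‖) * (‖u + t‖ + ‖u‖) := by unfold dsq; ring
  rw [h1, abs_mul]
  have h2 : |‖u + t‖ - ‖u‖| ≤ ‖t‖ := by
    have := abs_norm_sub_norm_le (u + t) u
    simpa using this
  have h3 : |‖u + t‖ + ‖u‖| ≤ 1 := by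
    rw [abs_of_nonneg (by positivity)]
    linarith [norm_le_half (u + t), norm_le_half u]
  calc |‖u + t‖ - ‖u‖| * |‖u + t‖ + ‖u‖| ≤ ‖t‖ * 1 :=
        mul_le_mul h2 h3 (abs_nonneg _) (norm_nonneg _)
    _ = ‖t‖ := mul_one _

lemma continuous_dsq (t : C1) : Continuous (dsq t) := by
  unfold dsq
  fun_prop

lemma norm_coe_le (x : ℝ) : ‖(x : C1)‖ ≤ |x| := by
  rcases le_or_gt |x| (1/2) with h | h
  · exact ((AddCircle.norm_coe_eq_abs_iff (1:ℝ) one_ne_zero).mpr (by simpa using h)).le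
  · exact (norm_le_half _).trans h.le

section sys
variable (α a : ℕ → ℝ)

/-- the translation by `n` times `α` -/
noncomputable def tt (n : ℤ) (i : ℕ) : C1 := (((n : ℝ) * α i : ℝ) : C1)

lemma tt_add (m n : ℤ) (i : ℕ) : tt α (m + n) i = tt α m i + tt α n i := by
  unfold tt
  rw [← AddCircle.coe_add]
  congr 1
  push_cast
  ring

lemma tt_zero (i : ℕ) : tt α 0 i = 0 := by
  unfold tt
  simp

/-- the cocycle -/
noncomputable def Phi (n : ℤ) (u : ℕ → C1) : ℝ := ∑' i, a i * dsq (tt α n i) (u i)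

/-- the `n`-th iterate -/
noncomputable def Flow (n : ℤ) (x : (ℕ → C1) × C1) : (ℕ → C1) × C1 :=
  (fun i => x.1 i + tt α n i, x.2 + ((Phi α a n x.1 : ℝ) : C1))

variable {α a} (hα : ∀ i, 0 < α i ∧ α i < 1 / 4) (ha : Summable (fun i => |a i| * α i))
include hα ha

omit ha in
lemma norm_tt_le (n : ℤ) (i : ℕ) : ‖tt α n i‖ ≤ |(n:ℝ)| * α i := by
  refine (norm_coe_le _).trans ?_
  rw [abs_mul, abs_of_pos (hα i).1]

omit ha in
lemma term_bound (n : ℤ) (i : ℕ) (v : C1) : ‖a i * dsq (tt α n i) v‖ ≤ |(n:ℝ)| * (|a i| * α i) := by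
  rw [Real.norm_eq_abs, abs_mul]
  calc |a i| * |dsq (tt α n i) v| ≤ |a i| * (|(n:ℝ)| * α i) :=
        mul_le_mul_of_nonneg_left ((abs_dsq_le _ _).trans (norm_tt_le hα n i)) (abs_nonneg _)
    _ = _ := by ring

lemma summable_Phi (n : ℤ) (u : ℕ → C1) : Summable (fun i => a i * dsq (tt α n i) (u i)) :=
  Summable.of_norm_bounded (ha.mul_left |(n:ℝ)|) fun i => term_bound hα n i (u i)

lemma continuous_Phi (n : ℤ) : Continuous (Phi α a n) := by
  unfold Phi
  apply continuous_tsum (u := fun i => |(n:ℝ)| * (|a i| * α i))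
  · intro i
    exact continuous_const.mul ((continuous_dsq _).comp (continuous_apply i))
  · exact ha.mul_left _
  · intro i u
    exact term_bound hα n i (u i)

lemma continuous_Flow (n : ℤ) : Continuous (Flow α a n) := by
  unfold Flow
  have h1 : Continuous (fun x : (ℕ → C1) × C1 => ((Phi α a n x.1 : ℝ) : C1)) :=
    (AddCircle.continuous_mk' (1:ℝ)).comp ((continuous_Phi hα ha n).comp continuous_fst)
  fun_prop

lemma Phi_add (m n : ℤ) (u : ℕ → C1) :
    Phi α a (m + n) u = Phi α a n u + Phi α a m (fun i => u i + tt α n i) := by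
  unfold Phi
  rw [← (summable_Phi hα ha n u).tsum_add (summable_Phi hα ha m (fun i => u i + tt α n i))]
  congr 1
  funext i
  rw [tt_add]
  unfold dsq
  rw [show u i + (tt α m i + tt α n i) = u i + tt α n i + tt α m i by abel]
  ring

lemma Flow_add (m n : ℤ) (x : (ℕ → C1) × C1) :
    Flow α a m (Flow α a n x) = Flow α a (m + n) x := by
  unfold Flow
  ext1
  · funext i
    simp only [tt_add]
    abel
  · simp only
    rw [Phi_add hα ha m n, AddCircle.coe_add]
    abel

omit hα ha in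
lemma Flow_zero (x : (ℕ → C1) × C1) : Flow α a 0 x = x := by
  unfold Flow Phi dsq
  simp [tt_zero]

/-- the transformation -/
noncomputable def TT : Equiv.Perm ((ℕ → C1) × C1) where
  toFun := Flow α a 1
  invFun := Flow α a (-1)
  left_inv := fun x => by rw [Flow_add hα ha]; norm_num [Flow_zero]
  right_inv := fun x => by rw [Flow_add hα ha]; norm_num [Flow_zero]

lemma TT_zpow (n : ℤ) (x : (ℕ → C1) × C1) : ((TT hα ha) ^ n) x = Flow α a n x := by
  induction n using Int.induction_on generalizing x with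
  | zero => rw [zpow_zero, Flow_zero]; rfl
  | succ k ih =>
    rw [zpow_add_one, Equiv.Perm.mul_apply, ih]
    show Flow α a k (Flow α a 1 x) = _
    rw [Flow_add hα ha]
  | pred k ih =>
    rw [zpow_sub_one, Equiv.Perm.mul_apply, ih]
    show Flow α a (-k) (Flow α a (-1) x) = _
    rw [Flow_add hα ha]
    congr 1

/-- the invariant measure -/
noncomputable def MM : Measure ((ℕ → C1) × C1) :=
  (Measure.infinitePi (fun _ : ℕ => (volume : Measure C1))).prod volume

omit hα ha in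
instance : IsProbabilityMeasure MM := by unfold MM; infer_instance

lemma mp_Flow (n : ℤ) : MeasurePreserving (Flow α a n) MM MM := by
  unfold MM
  have hbase : MeasurePreserving (fun (u : ℕ → C1) i => u i + tt α n i)
      (Measure.infinitePi (fun _ : ℕ => (volume : Measure C1)))
      (Measure.infinitePi (fun _ : ℕ => (volume : Measure C1))) := by
    refine ⟨by fun_prop, ?_⟩
    rw [Measure.infinitePi_map_pi (f := fun i v => v + tt α n i) _ (fun i => by fun_prop)]
    have : (fun i : ℕ => Measure.map (fun v : C1 => v + tt α n i) volume) =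
        fun _ => (volume : Measure C1) := by
      funext i
      exact (measurePreserving_add_right volume (tt α n i)).map_eq
    simp only [this]
  have h1 : Continuous (Function.uncurry fun (u : ℕ → C1) (w : C1) =>
      w + ((Phi α a n u : ℝ) : C1)) := by
    have h2 : Continuous (fun x : (ℕ → C1) × C1 => ((Phi α a n x.1 : ℝ) : C1)) :=
      (AddCircle.continuous_mk' (1:ℝ)).comp ((continuous_Phi hα ha n).comp continuous_fst)
    exact continuous_snd.add h2
  exact hbase.skew_product h1.measurable (Eventually.of_forall fun u =>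
    (measurePreserving_add_right volume _).map_eq)

end sys

/-- the one-dimensional estimate -/
lemma one_dim (t : C1) (A : ℝ) :
    ∫⁻ v : C1, ‖ee ((A * (‖v + (t + t)‖^2 - 2 * ‖v + t‖^2 + ‖v‖^2) : ℝ) : C1) -
      ee ((A * (2 * ‖t‖^2) : ℝ) : C1)‖ₑ ≤ ENNReal.ofReal (4 * ‖t‖) := by
  obtain ⟨s, hs1, hs2⟩ : ∃ s : ℝ, (s : C1) = t ∧ |s| ≤ 1/2 := by
    obtain ⟨x, hx⟩ := QuotientAddGroup.mk_surjective t
    refine ⟨x - round x, ?_, abs_sub_round x⟩
    rw [← hx, AddCircle.coe_sub]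
    have : ((round x : ℝ) : C1) = 0 := by
      rw [AddCircle.coe_eq_zero_iff]
      exact ⟨round x, by simp⟩
    rw [this, sub_zero]
  have hts : ‖t‖ = |s| := by
    rw [← hs1]
    exact (AddCircle.norm_coe_eq_abs_iff (1:ℝ) one_ne_zero).mpr (by simpa using hs2)
  set F : C1 → ℝ≥0∞ := fun v => ‖ee ((A * (‖v + (t + t)‖^2 - 2 * ‖v + t‖^2 + ‖v‖^2) : ℝ) : C1) -
      ee ((A * (2 * ‖t‖^2) : ℝ) : C1)‖ₑ with hF
  have hF2 : ∀ v, F v ≤ 2 := by
    intro v
    rw [hF]
    simp only
    refine (enorm_sub_le).trans ?_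
    rw [← ofReal_norm, ← ofReal_norm, norm_ee, norm_ee]
    norm_num
  have hnorm : ∀ x : ℝ, |x| ≤ 1/2 → ‖(x : C1)‖ = |x| := fun x hx =>
    (AddCircle.norm_coe_eq_abs_iff (1:ℝ) one_ne_zero).mpr (by simpa using hx)
  have hF0 : ∀ x : ℝ, |x| ≤ 1/2 → |x + 2 * s| ≤ 1/2 → F (x : C1) = 0 := by
    intro x hx hxs
    have hxm : |x + s| ≤ 1/2 := by
      rw [abs_le] at hx hxs ⊢
      constructor <;> linarith [hx.1, hx.2, hxs.1, hxs.2]
    have e1 : (x : C1) + (t + t) = ((x + 2 * s : ℝ) : C1) := by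
      rw [← hs1, ← AddCircle.coe_add, ← AddCircle.coe_add]
      congr 1; ring
    have e2 : (x : C1) + t = ((x + s : ℝ) : C1) := by
      rw [← hs1, ← AddCircle.coe_add]
    rw [hF]
    simp only
    rw [e1, e2, hnorm _ hx, hnorm _ hxs, hnorm _ hxm, hts, sq_abs, sq_abs, sq_abs, sq_abs]
    rw [show (x + 2 * s)^2 - 2 * (x + s)^2 + x^2 = 2 * s^2 by ring, sub_self, enorm_zero]
  rw [← AddCircle.lintegral_preimage (1:ℝ) (-1/2) F]
  set B : Set ℝ := if 0 ≤ s then Ioc (1/2 - 2 * s) (1/2) else Ioo (-1/2) (-1/2 - 2 * s) with hB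
  have hBm : MeasurableSet B := by
    rw [hB]; split_ifs
    · exact measurableSet_Ioc
    · exact measurableSet_Ioo
  have hBv : volume B = ENNReal.ofReal (2 * |s|) := by
    rw [hB]; split_ifs with h
    · rw [Real.volume_Ioc, abs_of_nonneg h]; congr 1; ring
    · rw [Real.volume_Ioo, abs_of_neg (not_le.mp h)]; congr 1; ring
  have hpt : ∀ x ∈ Ioc (-1/2 : ℝ) (-1/2 + 1), F (x : C1) ≤ B.indicator (fun _ => 2) x := by
    intro x hx
    have hx1 : -1/2 < x := hx.1
    have hx2 : x ≤ 1/2 := by linarith [hx.2]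
    by_cases hxs : |x + 2 * s| ≤ 1/2
    · rw [hF0 x (abs_le.mpr ⟨by linarith, hx2⟩) hxs]; exact zero_le
    · have hxB : x ∈ B := by
        rw [abs_le, not_and_or, not_le, not_le] at hxs
        rw [hB]
        split_ifs with h
        · rcases hxs with h1 | h1
          · exfalso; linarith
          · exact ⟨by linarith, hx2⟩
        · push Not at h
          rcases hxs with h1 | h1
          · exact ⟨hx1, by linarith⟩
          · exfalso; linarith
      rw [indicator_of_mem hxB]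
      exact hF2 _
  calc ∫⁻ x in Ioc (-1/2 : ℝ) (-1/2 + 1), F (x : C1)
      ≤ ∫⁻ x in Ioc (-1/2 : ℝ) (-1/2 + 1), B.indicator (fun _ => 2) x :=
        setLIntegral_mono' measurableSet_Ioc hpt
    _ ≤ ∫⁻ x, B.indicator (fun _ => 2) x := setLIntegral_le_lintegral _ _
    _ = 2 * volume B := by rw [lintegral_indicator hBm, setLIntegral_const]
    _ = ENNReal.ofReal (4 * ‖t‖) := by
        rw [hBv, hts]
        have h2 : (2 : ℝ≥0∞) = ENNReal.ofReal 2 := by norm_num
        rw [h2, ← ENNReal.ofReal_mul (by norm_num)]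
        congr 1; ring

/-- the character of an infinite sum -/
lemma ee_tsum (x y : ℕ → ℝ) (hx : Summable x) (hy : Summable y) :
    ‖ee ((∑' i, x i : ℝ) : C1) - ee ((∑' i, y i : ℝ) : C1)‖ₑ ≤
      ∑' i, ‖ee ((x i : ℝ) : C1) - ee ((y i : ℝ) : C1)‖ₑ := by
  have hfin : ∀ N : ℕ, ‖ee ((∑ i ∈ Finset.range N, x i : ℝ) : C1) -
      ee ((∑ i ∈ Finset.range N, y i : ℝ) : C1)‖ₑ ≤
      ∑ i ∈ Finset.range N, ‖ee ((x i : ℝ) : C1) - ee ((y i : ℝ) : C1)‖ₑ := by
    intro N
    induction N with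
    | zero => simp
    | succ N ih =>
      rw [Finset.sum_range_succ, Finset.sum_range_succ, Finset.sum_range_succ, AddCircle.coe_add,
        AddCircle.coe_add, ee_add, ee_add]
      set p := ee ((∑ i ∈ Finset.range N, x i : ℝ) : C1)
      set q := ee ((∑ i ∈ Finset.range N, y i : ℝ) : C1) with hq
      have e : p * ee (x N : C1) - q * ee (y N : C1) =
          (p - q) * ee (x N : C1) + q * (ee (x N : C1) - ee (y N : C1)) := by ring
      rw [e]
      refine (enorm_add_le _ _).trans ?_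
      rw [enorm_mul, enorm_mul]
      have h1 : ∀ w, ‖ee w‖ₑ = 1 := fun w => by rw [← ofReal_norm, norm_ee]; simp
      rw [h1, hq, h1, mul_one, one_mul]
      exact add_le_add ih le_rfl
  have hle : ∀ N : ℕ, ‖ee ((∑ i ∈ Finset.range N, x i : ℝ) : C1) -
      ee ((∑ i ∈ Finset.range N, y i : ℝ) : C1)‖ₑ ≤
      ∑' i, ‖ee ((x i : ℝ) : C1) - ee ((y i : ℝ) : C1)‖ₑ := fun N =>
    (hfin N).trans (ENNReal.sum_le_tsum _)
  have hcont : Continuous (fun r : ℝ => ee (r : C1)) :=
    continuous_ee.comp (AddCircle.continuous_mk' (1:ℝ))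
  have ht : Tendsto (fun N : ℕ => ‖ee ((∑ i ∈ Finset.range N, x i : ℝ) : C1) -
      ee ((∑ i ∈ Finset.range N, y i : ℝ) : C1)‖ₑ) atTop
      (𝓝 ‖ee ((∑' i, x i : ℝ) : C1) - ee ((∑' i, y i : ℝ) : C1)‖ₑ) := by
    have h1 := (hcont.tendsto _).comp hx.hasSum.tendsto_sum_nat
    have h2 := (hcont.tendsto _).comp hy.hasSum.tendsto_sum_nat
    exact (h1.sub h2).enorm
  exact le_of_tendsto ht (Eventually.of_forall hle)

theorem exists_system (α a : ℕ → ℝ) (hα : ∀ i, 0 < α i ∧ α i < 1 / 4) (hα' : Summable α)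
    (ha : Summable (fun i => |a i| * α i)) :
    ∃ (X : Type) (_ : MeasurableSpace X) (μ : Measure X) (_ : IsProbabilityMeasure μ)
      (T : Equiv.Perm X) (f₀ f₁ f₂ : X → ℂ), MeasurePreserving T μ μ ∧ Measurable T.symm ∧
      Measurable f₀ ∧ Measurable f₁ ∧ Measurable f₂ ∧ (∀ x, ‖f₀ x‖ ≤ 1) ∧ (∀ x, ‖f₁ x‖ ≤ 1) ∧
      (∀ x, ‖f₂ x‖ ≤ 1) ∧
      ∀ n : ℤ, ‖∫ x, f₀ x * (f₁ ((T ^ n) x) * f₂ ((T ^ (2 * n)) x)) ∂μ -
        Complex.exp (4 * Real.pi * Complex.I *
          ((∑' i, a i * ‖(((n : ℝ) * α i : ℝ) : AddCircle (1 : ℝ))‖ ^ 2 : ℝ) : ℂ))‖ ≤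
        8 * ∑' i, ‖(((n : ℝ) * α i : ℝ) : AddCircle (1 : ℝ))‖ := by
  have hee2 : Continuous fun x : (ℕ → C1) × C1 => ee x.2 := continuous_ee.comp continuous_snd
  refine ⟨(ℕ → C1) × C1, inferInstance, MM, inferInstance, TT hα ha, fun x => ee x.2,
    fun x => (ee x.2)⁻¹ ^ 2, fun x => ee x.2, mp_Flow hα ha 1, (continuous_Flow hα ha (-1)).measurable,
    hee2.measurable, ((hee2.inv₀ fun x => ee_ne _).pow 2).measurable, hee2.measurable,
    fun x => (norm_ee _).le, fun x => by simp [norm_ee], fun x => (norm_ee _).le, fun n => ?_⟩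
  -- the integrand
  set c : ℝ := ∑' i, a i * (2 * ‖tt α n i‖ ^ 2) with hc
  set g : (ℕ → C1) → ℝ := fun u => ∑' i, a i * (‖u i + (tt α n i + tt α n i)‖^2 -
    2 * ‖u i + tt α n i‖^2 + ‖u i‖^2) with hg
  have hsumX : ∀ u : ℕ → C1, Summable (fun i => a i * (‖u i + (tt α n i + tt α n i)‖^2 -
    2 * ‖u i + tt α n i‖^2 + ‖u i‖^2)) := by
    intro u
    have h1 := (summable_Phi hα ha (n + n) u).sub ((summable_Phi hα ha n u).mul_left 2)
    refine h1.congr fun i => ?_
    rw [tt_add]; unfold dsq; ring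
  have hgu : ∀ u, g u = Phi α a (n + n) u - 2 * Phi α a n u := by
    intro u
    unfold Phi
    rw [← tsum_mul_left, ← (summable_Phi hα ha (n + n) u).tsum_sub
      ((summable_Phi hα ha n u).mul_left 2), hg]
    simp only
    congr 1
    funext i
    rw [tt_add]; unfold dsq; ring
  have hsumc : Summable (fun i => a i * (2 * ‖tt α n i‖ ^ 2)) := by
    apply Summable.of_norm_bounded (ha.mul_left |(n:ℝ)|)
    intro i
    rw [Real.norm_eq_abs, abs_mul]
    have h1 : |2 * ‖tt α n i‖ ^ 2| ≤ ‖tt α n i‖ := by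
      rw [abs_of_nonneg (by positivity)]
      nlinarith [norm_nonneg (tt α n i), norm_le_half (tt α n i)]
    calc |a i| * |2 * ‖tt α n i‖ ^ 2| ≤ |a i| * (|(n:ℝ)| * α i) :=
          mul_le_mul_of_nonneg_left (h1.trans (norm_tt_le hα n i)) (abs_nonneg _)
      _ = _ := by ring
  have hexp : Complex.exp (4 * Real.pi * Complex.I *
      ((∑' i, a i * ‖(((n : ℝ) * α i : ℝ) : AddCircle (1 : ℝ))‖ ^ 2 : ℝ) : ℂ)) = ee (c : C1) := by
    rw [ee_coe, hc]
    have : ∑' i, a i * (2 * ‖tt α n i‖ ^ 2) = 2 * ∑' i, a i * ‖tt α n i‖ ^ 2 := by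
      rw [← tsum_mul_left]; congr 1; funext i; ring
    rw [this]
    unfold tt
    congr 1
    push_cast
    ring
  have hint : ∀ x : (ℕ → C1) × C1, ee x.2 * ((ee (((TT hα ha) ^ n) x).2)⁻¹ ^ 2 *
      ee (((TT hα ha) ^ (2 * n)) x).2) = ee ((g x.1 : ℝ) : C1) := by
    intro x
    rw [TT_zpow, TT_zpow, two_mul]
    unfold Flow
    simp only
    rw [ee_add, ee_add, hgu, AddCircle.coe_sub, two_mul, AddCircle.coe_add]
    have h1 : ee (((Phi α a (n + n) x.1 : ℝ) : C1) - (((Phi α a n x.1 : ℝ) : C1) +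
        ((Phi α a n x.1 : ℝ) : C1))) * (ee ((Phi α a n x.1 : ℝ) : C1) *
        ee ((Phi α a n x.1 : ℝ) : C1)) = ee ((Phi α a (n + n) x.1 : ℝ) : C1) := by
      rw [← ee_add, ← ee_add, sub_add_cancel]
    have h2 := ee_ne x.2
    have h3 := ee_ne ((Phi α a n x.1 : ℝ) : C1)
    rw [← h1]
    field_simp
  rw [hexp]
  have hcont : Continuous (fun x : (ℕ → C1) × C1 => ee ((g x.1 : ℝ) : C1)) := by
    have h1 : Continuous g := by
      have : g = fun u => Phi α a (n + n) u - 2 * Phi α a n u := funext hgu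
      rw [this]
      exact (continuous_Phi hα ha _).sub (continuous_const.mul (continuous_Phi hα ha _))
    exact continuous_ee.comp ((AddCircle.continuous_mk' (1:ℝ)).comp (h1.comp continuous_fst))
  have hI : ∫ x, ee x.2 * ((ee (((TT hα ha) ^ n) x).2)⁻¹ ^ 2 *
      ee (((TT hα ha) ^ (2 * n)) x).2) ∂MM = ∫ x : (ℕ → C1) × C1, ee ((g x.1 : ℝ) : C1) ∂MM := by
    congr 1
    funext x
    exact hint x
  rw [hI]
  have hInt : Integrable (fun x : (ℕ → C1) × C1 => ee ((g x.1 : ℝ) : C1)) MM := by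
    apply Integrable.of_bound hcont.aestronglyMeasurable 1
    exact Eventually.of_forall fun x => (norm_ee _).le
  have hsub : ∫ x : (ℕ → C1) × C1, ee ((g x.1 : ℝ) : C1) ∂MM - ee (c : C1) =
      ∫ x : (ℕ → C1) × C1, (ee ((g x.1 : ℝ) : C1) - ee (c : C1)) ∂MM := by
    rw [integral_sub hInt (integrable_const _)]
    simp
  rw [hsub]
  have hst : Summable (fun i => ‖tt α n i‖) :=
    Summable.of_nonneg_of_le (fun i => norm_nonneg _) (fun i => norm_tt_le hα n i)
      (hα'.mul_left |(n:ℝ)|)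
  have hmain : ∫⁻ x : (ℕ → C1) × C1, ‖ee ((g x.1 : ℝ) : C1) - ee (c : C1)‖ₑ ∂MM ≤
      ENNReal.ofReal (4 * ∑' i, ‖tt α n i‖) := by
    calc ∫⁻ x : (ℕ → C1) × C1, ‖ee ((g x.1 : ℝ) : C1) - ee (c : C1)‖ₑ ∂MM
        ≤ ∫⁻ x : (ℕ → C1) × C1, ∑' i, ‖ee ((a i * (‖x.1 i + (tt α n i + tt α n i)‖^2 -
            2 * ‖x.1 i + tt α n i‖^2 + ‖x.1 i‖^2) : ℝ) : C1) -
            ee ((a i * (2 * ‖tt α n i‖ ^ 2) : ℝ) : C1)‖ₑ ∂MM := by
          apply lintegral_mono
          intro x
          exact ee_tsum _ _ (hsumX x.1) hsumc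
      _ = ∑' i, ∫⁻ x : (ℕ → C1) × C1, ‖ee ((a i * (‖x.1 i + (tt α n i + tt α n i)‖^2 -
            2 * ‖x.1 i + tt α n i‖^2 + ‖x.1 i‖^2) : ℝ) : C1) -
            ee ((a i * (2 * ‖tt α n i‖ ^ 2) : ℝ) : C1)‖ₑ ∂MM := by
          rw [lintegral_tsum]
          intro i
          apply Measurable.aemeasurable
          apply Continuous.measurable
          apply Continuous.enorm
          apply Continuous.sub _ continuous_const
          refine continuous_ee.comp ((AddCircle.continuous_mk' (1:ℝ)).comp ?_)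
          fun_prop
      _ ≤ ∑' i, ENNReal.ofReal (4 * ‖tt α n i‖) := by
          apply ENNReal.tsum_le_tsum
          intro i
          have hmp : MeasurePreserving (fun x : (ℕ → C1) × C1 => x.1 i) MM volume := by
            have h1 := measurePreserving_eval_infinitePi
              (fun _ : ℕ => (volume : Measure C1)) i
            have h2 : MeasurePreserving (Prod.fst : (ℕ → C1) × C1 → (ℕ → C1)) MM
              (Measure.infinitePi (fun _ : ℕ => (volume : Measure C1))) := by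
              unfold MM
              exact measurePreserving_fst
            exact h1.comp h2
          have hm : Measurable (fun v : C1 => ‖ee ((a i * (‖v + (tt α n i + tt α n i)‖^2 -
            2 * ‖v + tt α n i‖^2 + ‖v‖^2) : ℝ) : C1) -
            ee ((a i * (2 * ‖tt α n i‖ ^ 2) : ℝ) : C1)‖ₑ) := by
            apply Continuous.measurable
            apply Continuous.enorm
            apply Continuous.sub _ continuous_const
            refine continuous_ee.comp ((AddCircle.continuous_mk' (1:ℝ)).comp ?_)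
            fun_prop
          have h3 := hmp.lintegral_comp hm
          rw [h3]
          exact one_dim _ _
      _ = ENNReal.ofReal (4 * ∑' i, ‖tt α n i‖) := by
          rw [← tsum_mul_left, ENNReal.ofReal_tsum_of_nonneg]
          · intro i; positivity
          · exact hst.mul_left 4
  have hfin : ‖∫ x : (ℕ → C1) × C1, (ee ((g x.1 : ℝ) : C1) - ee (c : C1)) ∂MM‖ ≤
      4 * ∑' i, ‖tt α n i‖ := by
    have h1 := (enorm_integral_le_lintegral_enorm
      (fun x : (ℕ → C1) × C1 => (ee ((g x.1 : ℝ) : C1) - ee (c : C1))) (μ := MM)).trans hmain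
    rw [← ofReal_norm] at h1
    exact (ENNReal.ofReal_le_ofReal_iff (by positivity)).mp h1
  have h0 : 0 ≤ ∑' i, ‖tt α n i‖ := tsum_nonneg fun i => norm_nonneg _
  calc _ ≤ 4 * ∑' i, ‖tt α n i‖ := hfin
    _ ≤ 8 * ∑' i, ‖tt α n i‖ := by linarith

end Pool.Agent.TH286.NC
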