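import Pool.Agent.TH296.NC.Defs
import Pool.Agent.Helper472.Lat_Chars

set_option autoImplicit false

/-! NC-M4a: vertical eigenfunctions are dense in `C(G / Γ)` (job for `MP_fc4783_an`). -/

open Filter Topology MeasureTheory Set
open scoped commutatorElement

namespace Pool.Agent.TH286.NC

section abs

set_option linter.unusedSectionVars false

variable {K : Type*} [CommGroup K] [TopologicalSpace K] [IsTopologicalGroup K] [CompactSpace K]
  [T2Space K]

/-- a character as an element of `C(K, ℂ)` -/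
noncomputable def chC (ψ : ContinuousMonoidHom K Circle) : C(K, ℂ) :=
  ⟨fun k => (ψ k : ℂ), continuous_induced_dom.comp ψ.continuous_toFun⟩

lemma inv_ap (ψ : ContinuousMonoidHom K Circle) (k : K) : ψ⁻¹ k = (ψ k)⁻¹ := rfl

@[simp] lemma chC_apply (ψ : ContinuousMonoidHom K Circle) (k : K) : chC ψ k = (ψ k : ℂ) := rfl

/-- the star subalgebra generated by the characters -/
noncomputable def charAlg : StarSubalgebra ℂ C(K, ℂ) where
  toSubalgebra := Algebra.adjoin ℂ (range (chC (K := K)))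
  star_mem' := by
    change Algebra.adjoin ℂ (range (chC (K := K))) ≤ star (Algebra.adjoin ℂ (range (chC (K := K))))
    refine Algebra.adjoin_le ?_
    rintro - ⟨ψ, rfl⟩
    refine Algebra.subset_adjoin ⟨ψ⁻¹, ?_⟩
    ext k
    simp [← Circle.coe_inv_eq_conj, inv_ap]

lemma charAlg_coe : Subalgebra.toSubmodule (charAlg (K := K)).toSubalgebra =
    Submodule.span ℂ (range (chC (K := K))) := by
  apply Algebra.adjoin_eq_span_of_subset
  refine Subset.trans ?_ Submodule.subset_span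
  intro x hx
  refine Submonoid.closure_induction (fun _ => id) ⟨1, ?_⟩ ?_ hx
  · ext k; simp
  · rintro - - - - ⟨φ, rfl⟩ ⟨ψ, rfl⟩
    refine ⟨φ * ψ, ?_⟩
    ext k
    simp

lemma charAlg_dense : (charAlg (K := K)).topologicalClosure = ⊤ := by
  apply ContinuousMap.starSubalgebra_topologicalClosure_eq_top_of_separatesPoints
  intro x y hxy
  obtain ⟨χ, hχ⟩ := Pool.LatH472.chars (x⁻¹ * y) (by
    intro h
    exact hxy (inv_mul_eq_one.mp h))
  refine ⟨chC χ, ⟨chC χ, Algebra.subset_adjoin ⟨χ, rfl⟩, rfl⟩, ?_⟩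
  intro h
  apply hχ
  have h1 : χ x = χ y := by
    apply Circle.coe_injective
    exact h
  rw [map_mul, map_inv, h1, inv_mul_cancel]

variable {Y : Type*} [TopologicalSpace Y] [CompactSpace Y]

/-- abstract density of eigenfunctions for an action of a compact abelian group -/
theorem dense_eig (act : Y → K → Y) (hact : Continuous (fun q : K × Y => act q.2 q.1))
    (hone : ∀ y, act y 1 = y) (hmul : ∀ y k k', act (act y k) k' = act y (k * k'))
    (F : C(Y, ℂ)) (ε : ℝ) (hε : 0 < ε) :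
    ∃ (n : ℕ) (ψ : Fin n → ContinuousMonoidHom K Circle) (f : Fin n → C(Y, ℂ)),
      (∀ i y k, f i (act y k) = (ψ i k : ℂ) * f i y) ∧ ∀ y, ‖F y - ∑ i, f i y‖ ≤ ε := by
  let _ : MeasurableSpace K := borel K
  have : BorelSpace K := ⟨rfl⟩
  set μ : Measure K := Measure.haarMeasure ⊤ with hμ
  have : IsProbabilityMeasure μ := ⟨by
    have := Measure.haarMeasure_self (K₀ := (⊤ : TopologicalSpace.PositiveCompacts K))
    simpa using this⟩
  -- the orbit map
  set Θ : C(K, C(Y, ℂ)) := ContinuousMap.curry ⟨fun q : K × Y => F (act q.2 q.1),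
    F.continuous.comp hact⟩ with hΘ
  have hΘa : ∀ k y, Θ k y = F (act y k) := fun k y => rfl
  have hΘn : ∀ k, ‖Θ k‖ ≤ ‖F‖ := by
    intro k
    rw [ContinuousMap.norm_le _ (norm_nonneg _)]
    intro y
    rw [hΘa]
    exact F.norm_coe_le_norm _
  have hint : ∀ p : C(K, ℂ), Integrable (fun k => p k • Θ k) μ := fun p =>
    (p.continuous.smul Θ.continuous).integrable_of_hasCompactSupport
      (HasCompactSupport.of_compactSpace _)
  -- the averaging operator
  let L : C(K, ℂ) →ₗ[ℂ] C(Y, ℂ) :=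
    { toFun := fun p => ∫ k, p k • Θ k ∂μ
      map_add' := by
        intro p q
        rw [← integral_add (hint p) (hint q)]
        simp only [ContinuousMap.add_apply, add_smul]
      map_smul' := by
        intro c p
        simp only [RingHom.id_apply]
        rw [← integral_smul]
        simp only [ContinuousMap.smul_apply, smul_assoc] }
  have hL : ∀ p, L p = ∫ k, p k • Θ k ∂μ := fun p => rfl
  have hLn : ∀ p, ‖L p‖ ≤ ‖p‖ * ‖F‖ := by
    intro p
    rw [hL]
    refine (norm_integral_le_of_norm_le_const (C := ‖p‖ * ‖F‖) ?_).trans (by simp)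
    refine Eventually.of_forall fun k => ?_
    rw [norm_smul]
    exact mul_le_mul (p.norm_coe_le_norm k) (hΘn k) (norm_nonneg _) (norm_nonneg _)
  have hLy : ∀ p y, L p y = ∫ k, p k * F (act y k) ∂μ := by
    intro p y
    have h1 := ((ContinuousMap.evalCLM ℂ y).integral_comp_comm (hint p)).symm
    rw [hL]
    exact h1
  -- characters are mapped to eigenfunctions
  have heig : ∀ (ψ : ContinuousMonoidHom K Circle) y k₀,
      L (chC ψ) (act y k₀) = ((ψ⁻¹ k₀ : Circle) : ℂ) * L (chC ψ) y := by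
    intro ψ y k₀
    rw [hLy, hLy]
    have h1 := integral_mul_left_eq_self (μ := μ)
      (fun k => (ψ (k₀⁻¹ * k) : ℂ) * F (act y k)) k₀
    have h2 : ∫ k, chC ψ k * F (act (act y k₀) k) ∂μ = ∫ k, (ψ (k₀⁻¹ * k) : ℂ) * F (act y k) ∂μ := by
      rw [← h1]
      congr 1
      funext k
      rw [inv_mul_cancel_left, hmul, chC_apply]
    rw [h2, ← integral_const_mul]
    congr 1
    funext k
    rw [map_mul, Circle.coe_mul, chC_apply, mul_assoc, map_inv, inv_ap]
  -- an approximate identity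
  set U : Set K := {k | ‖Θ k - F‖ < ε / 2} with hU
  have hUo : IsOpen U := isOpen_lt (by fun_prop) continuous_const
  have h1U : (1 : K) ∈ U := by
    have : Θ 1 = F := by ext y; rw [hΘa, hone]
    rw [hU, mem_ofPred_eq, this, sub_self, norm_zero]
    positivity
  obtain ⟨w, hw0, hw1, hw⟩ := exists_continuous_zero_one_of_isClosed (s := Uᶜ) (t := {(1:K)})
    hUo.isClosed_compl isClosed_singleton (by
      rw [Set.disjoint_singleton_right]; simpa using h1U)
  have hwint : Integrable (fun k => w k) μ :=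
    w.continuous.integrable_of_hasCompactSupport (HasCompactSupport.of_compactSpace _)
  have hwpos : 0 < ∫ k, w k ∂μ := by
    apply w.continuous.integral_pos_of_hasCompactSupport_nonneg_nonzero
      (HasCompactSupport.of_compactSpace _) (fun k => (hw k).1) (x := 1)
    have := hw1 (mem_singleton (1:K))
    rw [this]
    exact one_ne_zero
  set I := ∫ k, w k ∂μ with hI
  let u : C(K, ℂ) := ⟨fun k => ((w k / I : ℝ) : ℂ), by fun_prop⟩
  have huint : ∫ k, u k ∂μ = 1 := by
    have : ∀ k, u k = ((w k / I : ℝ) : ℂ) := fun k => rfl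
    simp only [this]
    rw [integral_complex_ofReal, integral_div, ← hI, div_self hwpos.ne']
    simp
  have hLu : ‖F - L u‖ ≤ ε / 2 := by
    have h1 : F - L u = ∫ k, u k • (F - Θ k) ∂μ := by
      simp only [smul_sub]
      rw [integral_sub _ (hint u), integral_smul_const, huint, one_smul, ← hL]
      exact (u.continuous.smul continuous_const).integrable_of_hasCompactSupport
        (HasCompactSupport.of_compactSpace _)
    rw [h1]
    have h2 : ∀ k, ‖u k • (F - Θ k)‖ ≤ (w k / I) * (ε / 2) := by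
      intro k
      have hk0 : 0 ≤ w k / I := div_nonneg (hw k).1 hwpos.le
      rw [norm_smul]
      have h3 : ‖u k‖ = w k / I := by
        show ‖((w k / I : ℝ) : ℂ)‖ = _
        rw [Complex.norm_real, Real.norm_of_nonneg hk0]
      rw [h3]
      by_cases hk : k ∈ U
      · apply mul_le_mul_of_nonneg_left _ hk0
        rw [norm_sub_rev]
        exact le_of_lt hk
      · have := hw0 hk
        rw [this]
        simp
    refine (norm_integral_le_of_norm_le ((hwint.div_const I).mul_const (ε/2))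
      (Eventually.of_forall h2)).trans ?_
    rw [integral_mul_const, integral_div, ← hI, div_self hwpos.ne', one_mul]
  -- approximation of `u` by a trigonometric polynomial
  have hud : u ∈ (charAlg (K := K)).topologicalClosure := by rw [charAlg_dense]; trivial
  have hud2 : u ∈ closure ((charAlg (K := K) : StarSubalgebra ℂ C(K, ℂ)) : Set C(K, ℂ)) := hud
  obtain ⟨p, hp, hpu⟩ := Metric.mem_closure_iff.mp hud2 (ε / 2 / (‖F‖ + 1)) (by positivity)
  have hp2 : p ∈ Submodule.span ℂ (range (chC (K := K))) := by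
    rw [← charAlg_coe]; exact hp
  obtain ⟨n, c, g, hcg⟩ := Submodule.mem_span_set'.mp hp2
  choose ψ hψ using fun i => (g i).2
  refine ⟨n, fun i => (ψ i)⁻¹, fun i => c i • L (chC (ψ i)), ?_, ?_⟩
  · intro i y k
    rw [ContinuousMap.smul_apply, ContinuousMap.smul_apply, heig, smul_eq_mul, smul_eq_mul]
    ring
  · intro y
    have h1 : ∑ i, (c i • L (chC (ψ i))) y = L p y := by
      rw [← hcg, map_sum, ContinuousMap.sum_apply]
      congr 1
      funext i
      rw [map_smul, hψ]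
    rw [h1]
    have h2 : ‖F - L p‖ ≤ ε := by
      have h3 : F - L p = (F - L u) + L (u - p) := by rw [map_sub]; abel
      rw [h3]
      refine (norm_add_le _ _).trans ?_
      have h4 : ‖L (u - p)‖ ≤ ε / 2 := by
        refine (hLn _).trans ?_
        rw [dist_eq_norm] at hpu
        have h5 : 0 < ‖F‖ + 1 := by positivity
        calc ‖u - p‖ * ‖F‖ ≤ (ε / 2 / (‖F‖ + 1)) * (‖F‖ + 1) :=
              mul_le_mul hpu.le (by linarith) (norm_nonneg _) (by positivity)
          _ = ε / 2 := by field_simp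
      linarith
    have h3 := (F - L p).norm_coe_le_norm y
    rw [ContinuousMap.sub_apply] at h3
    exact h3.trans h2

end abs

section nil

set_option linter.unusedSectionVars false
set_option linter.unusedVariables false

open Pool.Agent.TH296.NC

variable {G : Type*} [Group G] [TopologicalSpace G] [IsTopologicalGroup G] [T2Space G]
  (Γ : Subgroup G) [DiscreteTopology Γ]

lemma comm_mem {h h' : G} (hh : h ∈ HH G Γ) (hh' : h' ∈ HH G Γ) : ⁅h, h'⁆ ∈ Γ := by
  have hcl : IsClosed {q : G × G | ⁅q.1, q.2⁆ ∈ Γ} := by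
    have h1 : IsClosed (Γ : Set G) := Subgroup.isClosed_of_discrete
    have h2 : Continuous (fun q : G × G => ⁅q.1, q.2⁆) := by
      simp only [commutatorElement_def]
      fun_prop
    exact h1.preimage h2
  have hsub : (((Subgroup.center G ⊔ Γ : Subgroup G) : Set G) ×ˢ
      ((Subgroup.center G ⊔ Γ : Subgroup G) : Set G)) ⊆ {q : G × G | ⁅q.1, q.2⁆ ∈ Γ} := by
    rintro ⟨x, y⟩ ⟨hx, hy⟩
    rw [Subgroup.normal_mul] at hx hy
    obtain ⟨z, hz, g, hg, rfl⟩ := hx
    obtain ⟨z', hz', g', hg', rfl⟩ := hy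
    have hz1 : ∀ a, a * z = z * a := fun a => Subgroup.mem_center_iff.mp hz a
    have hz2 : ∀ a, a * z' = z' * a := fun a => Subgroup.mem_center_iff.mp hz' a
    have e : ⁅z * g, z' * g'⁆ = ⁅g, g'⁆ := by
      simp only [commutatorElement_def, mul_inv_rev]
      calc z * g * (z' * g') * (g⁻¹ * z⁻¹) * (g'⁻¹ * z'⁻¹)
          = z * (g * z') * g' * g⁻¹ * z⁻¹ * g'⁻¹ * z'⁻¹ := by group
        _ = z * (z' * g) * g' * g⁻¹ * z⁻¹ * g'⁻¹ * z'⁻¹ := by rw [hz2]
        _ = (z * z' * (g * g' * g⁻¹)) * z⁻¹ * g'⁻¹ * z'⁻¹ := by group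
        _ = ((z * (z' * (g * g' * g⁻¹)))) * z⁻¹ * g'⁻¹ * z'⁻¹ := by group
        _ = ((z' * (g * g' * g⁻¹)) * z) * z⁻¹ * g'⁻¹ * z'⁻¹ := by rw [hz1]
        _ = (z' * (g * g' * g⁻¹ * g'⁻¹)) * z'⁻¹ := by group
        _ = ((g * g' * g⁻¹ * g'⁻¹) * z') * z'⁻¹ := by rw [hz2]
        _ = g * g' * g⁻¹ * g'⁻¹ := by group
    show ⁅z * g, z' * g'⁆ ∈ Γ
    rw [e, commutatorElement_def]
    exact Γ.mul_mem (Γ.mul_mem (Γ.mul_mem hg hg') (Γ.inv_mem hg)) (Γ.inv_mem hg')
  have hcl2 := closure_minimal hsub hcl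
  rw [closure_prod_eq] at hcl2
  have k1 : h ∈ closure ((Subgroup.center G ⊔ Γ : Subgroup G) : Set G) := hh
  have k2 : h' ∈ closure ((Subgroup.center G ⊔ Γ : Subgroup G) : Set G) := hh'
  have k3 : (h, h') ∈ {q : G × G | ⁅q.1, q.2⁆ ∈ Γ} := hcl2 (Set.mk_mem_prod k1 k2)
  exact k3

lemma Γ_le : Γ ≤ HH G Γ := le_trans le_sup_right (Subgroup.le_topologicalClosure _)

instance normalΓ : (Γ.subgroupOf (HH G Γ)).Normal := by
  constructor
  intro n hn g
  rw [Subgroup.mem_subgroupOf] at hn ⊢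
  have h1 : ⁅(g : G), (n : G)⁆ ∈ Γ := comm_mem Γ g.2 n.2
  have h2 := Γ.mul_mem h1 hn
  have e : ⁅(g : G), (n : G)⁆ * n = ((g * n * g⁻¹ : HH G Γ) : G) := by
    simp [commutatorElement_def]
  rwa [e] at h2

instance closedΓ : IsClosed ((Γ.subgroupOf (HH G Γ) : Subgroup (HH G Γ)) : Set (HH G Γ)) := by
  have h1 : IsClosed (Γ : Set G) := Subgroup.isClosed_of_discrete
  exact h1.preimage continuous_subtype_val

/-- the compact abelian group acting on the right -/
abbrev KK := HH G Γ ⧸ Γ.subgroupOf (HH G Γ)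

instance commKK : CommGroup (KK Γ) :=
  { (inferInstance : Group (KK Γ)) with
    mul_comm := by
      intro a b
      obtain ⟨a, rfl⟩ := QuotientGroup.mk_surjective a
      obtain ⟨b, rfl⟩ := QuotientGroup.mk_surjective b
      rw [← QuotientGroup.mk_mul, ← QuotientGroup.mk_mul, QuotientGroup.eq,
        Subgroup.mem_subgroupOf]
      have h1 : ⁅((b : G))⁻¹, ((a : G))⁻¹⁆ ∈ Γ :=
        comm_mem Γ ((HH G Γ).inv_mem b.2) ((HH G Γ).inv_mem a.2)
      have e : ⁅((b : G))⁻¹, ((a : G))⁻¹⁆ = (((a * b)⁻¹ * (b * a) : HH G Γ) : G) := by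
        simp [commutatorElement_def, mul_assoc]
      rwa [e] at h1 }

instance topKK : IsTopologicalGroup (KK Γ) := inferInstance

lemma isClosed_HH : IsClosed ((HH G Γ : Subgroup G) : Set G) :=
  Subgroup.isClosed_topologicalClosure _

instance compactKK [LocallyCompactSpace G] [CompactSpace (G ⧸ Γ)] : CompactSpace (KK Γ) := by
  -- a compact set covering the quotient
  obtain ⟨C, hC, hCu⟩ : ∃ C : Set G, IsCompact C ∧ ∀ y : G ⧸ Γ, ∃ c ∈ C, (c : G ⧸ Γ) = y := by
    choose C hC hCn using fun g : G => exists_compact_mem_nhds g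
    have hopen : ∀ g, IsOpen ((fun x : G => (x : G ⧸ Γ)) '' interior (C g)) := fun g =>
      QuotientGroup.isOpenMap_coe _ isOpen_interior
    obtain ⟨t, ht⟩ := isCompact_univ.elim_finite_subcover
      (fun g : G => (fun x : G => (x : G ⧸ Γ)) '' interior (C g)) hopen (by
        intro y _
        obtain ⟨g, rfl⟩ := QuotientGroup.mk_surjective y
        rw [mem_iUnion]
        exact ⟨g, g, mem_interior_iff_mem_nhds.mpr (hCn g), rfl⟩)
    refine ⟨⋃ g ∈ t, C g, t.isCompact_biUnion fun g _ => hC g, fun y => ?_⟩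
    have := ht (mem_univ y)
    simp only [mem_iUnion] at this
    obtain ⟨g, hg, c, hc, hcy⟩ := this
    refine ⟨c, ?_, hcy⟩
    simp only [mem_iUnion]
    exact ⟨g, hg, interior_subset hc⟩
  have hCH : IsCompact ((Subtype.val : HH G Γ → G) ⁻¹' C) :=
    (isClosed_HH Γ).isClosedEmbedding_subtypeVal.isCompact_preimage hC
  have himg : (fun x : HH G Γ => (x : KK Γ)) '' ((Subtype.val : HH G Γ → G) ⁻¹' C) = univ := by
    rw [eq_univ_iff_forall]
    intro k
    obtain ⟨h, rfl⟩ := QuotientGroup.mk_surjective k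
    obtain ⟨c, hc, hch⟩ := hCu ((h : G) : G ⧸ Γ)
    have hg : c⁻¹ * (h : G) ∈ Γ := QuotientGroup.eq.mp hch
    have hcH : c ∈ HH G Γ := by
      have h1 := (HH G Γ).mul_mem h.2 ((HH G Γ).inv_mem (Γ_le Γ hg))
      simpa [mul_inv_rev] using h1
    refine ⟨⟨c, hcH⟩, hc, ?_⟩
    show ((⟨c, hcH⟩ : HH G Γ) : KK Γ) = h
    rw [QuotientGroup.eq, Subgroup.mem_subgroupOf]
    exact hg
  constructor
  rw [← himg]
  exact hCH.image continuous_quotient_mk'

/-- the right action on the nilmanifold -/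
def actK : G ⧸ Γ → KK Γ → G ⧸ Γ :=
  Quotient.map₂ (fun (g : G) (h : HH G Γ) => g * h) (by
    intro g₁ g₂ hg h₁ h₂ hh
    have hg' : g₁⁻¹ * g₂ ∈ Γ := QuotientGroup.leftRel_apply.mp hg
    have hh' : h₁⁻¹ * h₂ ∈ Γ.subgroupOf (HH G Γ) := QuotientGroup.leftRel_apply.mp hh
    rw [Subgroup.mem_subgroupOf] at hh'
    refine QuotientGroup.leftRel_apply.mpr ?_
    have h1 : ⁅(g₁⁻¹ * g₂)⁻¹, ((h₁ : G))⁻¹⁆ ∈ Γ :=
      comm_mem Γ ((HH G Γ).inv_mem (Γ_le Γ hg')) ((HH G Γ).inv_mem h₁.2)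
    have h2 := Γ.mul_mem (Γ.mul_mem hg' h1) hh'
    have e : (g₁⁻¹ * g₂) * ⁅(g₁⁻¹ * g₂)⁻¹, ((h₁ : G))⁻¹⁆ * ((h₁⁻¹ * h₂ : HH G Γ) : G) =
        (g₁ * (h₁ : G))⁻¹ * (g₂ * (h₂ : G)) := by
      simp only [commutatorElement_def, Subgroup.coe_mul, Subgroup.coe_inv]
      group
    rwa [e] at h2)

lemma actK_mk (g : G) (h : HH G Γ) : actK Γ (g : G ⧸ Γ) (h : KK Γ) = ((g * h : G) : G ⧸ Γ) := rfl

lemma actK_cont : Continuous (fun q : KK Γ × (G ⧸ Γ) => actK Γ q.2 q.1) := by
  have h1 : IsOpenQuotientMap (Prod.map (fun h : HH G Γ => (h : KK Γ)) (fun g : G => (g : G ⧸ Γ))) :=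
    QuotientGroup.isOpenQuotientMap_mk.prodMap QuotientGroup.isOpenQuotientMap_mk
  rw [← h1.continuous_comp_iff]
  have h2 : Continuous (fun q : HH G Γ × G => ((q.2 * (q.1 : G) : G) : G ⧸ Γ)) :=
    continuous_quotient_mk'.comp (continuous_snd.mul (continuous_subtype_val.comp continuous_fst))
  exact h2

theorem eig_dense {G : Type*} [Group G] [TopologicalSpace G] [IsTopologicalGroup G]
    [T2Space G] [LocallyCompactSpace G] (Γ : Subgroup G) [DiscreteTopology Γ]
    [CompactSpace (G ⧸ Γ)] (hcomm : ∀ x y : G, ⁅x, y⁆ ∈ Subgroup.center G)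
    (F : G ⧸ Γ → ℂ) (hF : Continuous F) (ε : ℝ) (hε : 0 < ε) :
    ∃ (n : ℕ) (χ : Fin n → G → Circle) (f : Fin n → G ⧸ Γ → ℂ),
      (∀ i, IsEig Γ (χ i) (f i)) ∧ ∀ x, ‖F x - ∑ i, f i x‖ ≤ ε := by
  classical
  obtain ⟨n, ψ, f, h1, h2⟩ := dense_eig (actK Γ) (actK_cont Γ)
    (by
      intro y
      obtain ⟨g, rfl⟩ := QuotientGroup.mk_surjective y
      show actK Γ (g : G ⧸ Γ) ((1 : HH G Γ) : KK Γ) = _
      rw [actK_mk]
      simp)
    (by
      intro y k k'
      obtain ⟨g, rfl⟩ := QuotientGroup.mk_surjective y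
      obtain ⟨k, rfl⟩ := QuotientGroup.mk_surjective k
      obtain ⟨k', rfl⟩ := QuotientGroup.mk_surjective k'
      rw [actK_mk, actK_mk, ← QuotientGroup.mk_mul, actK_mk]
      simp [mul_assoc])
    ⟨F, hF⟩ ε hε
  let χ : Fin n → G → Circle := fun i g => if hg : g ∈ HH G Γ then
    ψ i ((⟨g, hg⟩ : HH G Γ) : KK Γ) else 1
  have hχ : ∀ i g (hg : g ∈ HH G Γ), χ i g = ψ i ((⟨g, hg⟩ : HH G Γ) : KK Γ) :=
    fun i g hg => dif_pos hg
  refine ⟨n, χ, fun i => f i, fun i => ⟨?_, ?_, ?_, (f i).continuous, ?_⟩, h2⟩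
  · rw [continuousOn_iff_continuous_domRestrict]
    have e : (HH G Γ : Set G).domRestrict (χ i) = fun h : HH G Γ => ψ i (h : KK Γ) := by
      funext h
      exact hχ i h h.2
    rw [e]
    exact (ψ i).continuous_toFun.comp continuous_quotient_mk'
  · intro h hh h' hh'
    rw [hχ i _ hh, hχ i _ hh', hχ i _ ((HH G Γ).mul_mem hh hh'), ← map_mul]
    rfl
  · intro γ hγ
    rw [hχ i _ (Γ_le Γ hγ)]
    have : (((⟨γ, Γ_le Γ hγ⟩ : HH G Γ)) : KK Γ) = 1 := by
      rw [QuotientGroup.eq_one_iff, Subgroup.mem_subgroupOf]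
      exact hγ
    rw [this, map_one]
  · intro g h hh
    rw [hχ i _ hh]
    exact h1 i (g : G ⧸ Γ) ((⟨h, hh⟩ : HH G Γ) : KK Γ)

end nil

end Pool.Agent.TH286.NC
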