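import Pool.Agent.TH296.NC.Defs2

set_option autoImplicit false

/-! Characters of subgroups of a Lie group are locally Lipschitz (job NC-S1a). -/

open Filter Topology Finset MeasureTheory
open scoped commutatorElement Manifold ContDiff

namespace Pool.Agent.TH286.NC

open Pool.Agent.TH296.NC

namespace S1a

/-- a twice differentiable local product with unit `0` is additive up to a bilinear error -/
theorem mul_bound {E : Type*} [NormedAddCommGroup E] [NormedSpace ℝ E] {m : E × E → E}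
    (hm : ContDiffAt ℝ 2 m 0) (h1 : ∀ᶠ X in 𝓝 (0 : E), m (X, 0) = X)
    (h2 : ∀ᶠ Y in 𝓝 (0 : E), m (0, Y) = Y) :
    ∃ ρ : ℝ, 0 < ρ ∧ ∃ L : ℝ, 0 < L ∧ ∀ X Y : E, ‖X‖ < ρ → ‖Y‖ < ρ →
      ‖m (X, Y) - X - Y‖ ≤ L * ‖X‖ * ‖Y‖ := by
  have hf : ContDiffAt ℝ 1 (fderiv ℝ m) 0 := hm.fderiv_right (by norm_num)
  obtain ⟨K, t, ht, hK⟩ := hf.exists_lipschitzOnWith
  have hd : ∀ᶠ p in 𝓝 (0 : E × E), DifferentiableAt ℝ m p := by
    filter_upwards [hm.eventually (by norm_num)] with p hp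
    exact hp.differentiableAt (by norm_num)
  obtain ⟨ρ1, hρ1, hb1⟩ := Metric.mem_nhds_iff.1 (Filter.inter_mem ht hd)
  obtain ⟨ρ2, hρ2, hb2⟩ := Metric.mem_nhds_iff.1 h1
  obtain ⟨ρ3, hρ3, hb3⟩ := Metric.mem_nhds_iff.1 (eventually_eventually_nhds.2 h2)
  refine ⟨min ρ1 (min ρ2 ρ3), lt_min hρ1 (lt_min hρ2 hρ3), K + 1, by positivity, ?_⟩
  intro X Y hX hY
  have hX1 : ‖X‖ < ρ1 := hX.trans_le (min_le_left _ _)
  have hX2 : ‖X‖ < ρ2 := hX.trans_le ((min_le_right _ _).trans (min_le_left _ _))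
  have hmem : ∀ Z W : E, ‖Z‖ < ρ1 → ‖W‖ < ρ1 → (Z, W) ∈ Metric.ball (0 : E × E) ρ1 := by
    intro Z W hZ hW
    rw [mem_ball_zero_iff, Prod.norm_def]
    exact max_lt hZ hW
  set s : Set E := Metric.ball 0 (min ρ1 (min ρ2 ρ3)) with hs
  have hYs : Y ∈ s := by rw [hs, mem_ball_zero_iff]; exact hY
  have h0s : (0 : E) ∈ s := by
    rw [hs]; exact Metric.mem_ball_self (lt_min hρ1 (lt_min hρ2 hρ3))
  have hder : ∀ Z y : E, ‖Z‖ < ρ1 → ‖y‖ < ρ1 → HasFDerivAt (fun w => m (Z, w))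
      ((fderiv ℝ m (Z, y)).comp (ContinuousLinearMap.inr ℝ E E)) y := by
    intro Z y hZ hy
    have hdm := ((hb1 (hmem Z y hZ hy)).2).hasFDerivAt
    have hin : HasFDerivAt (fun w : E => (Z, w)) (ContinuousLinearMap.inr ℝ E E) y := by
      exact hasFDerivAt_prodMk_right Z y
    exact HasFDerivAt.comp y hdm hin
  have hmv := Convex.norm_image_sub_le_of_norm_hasFDerivWithin_le
    (f := fun y => m (X, y) - y)
    (f' := fun y => (fderiv ℝ m (X, y)).comp (ContinuousLinearMap.inr ℝ E E) -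
      ContinuousLinearMap.id ℝ E) (C := K * ‖X‖) (s := s) (x := 0) (y := Y)
    (fun y hy => by
      have hy1 : ‖y‖ < ρ1 := (mem_ball_zero_iff.1 hy).trans_le (min_le_left _ _)
      exact ((hder X y hX1 hy1).sub (hasFDerivAt_id y)).hasFDerivWithinAt)
    (fun y hy => by
      have hy1 : ‖y‖ < ρ1 := (mem_ball_zero_iff.1 hy).trans_le (min_le_left _ _)
      have hy3 : ‖y‖ < ρ3 := (mem_ball_zero_iff.1 hy).trans_le
        ((min_le_right _ _).trans (min_le_right _ _))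
      have hid : ContinuousLinearMap.id ℝ E =
          (fderiv ℝ m (0, y)).comp (ContinuousLinearMap.inr ℝ E E) := by
        have h3 := hder 0 y (by simpa using hρ1) hy1
        have h4 : (fun w => m (0, w)) =ᶠ[𝓝 y] fun w => w := hb3 (mem_ball_zero_iff.2 hy3)
        have h5 : HasFDerivAt (fun w : E => w)
            ((fderiv ℝ m (0, y)).comp (ContinuousLinearMap.inr ℝ E E)) y :=
          h3.congr_of_eventuallyEq h4.symm
        exact (hasFDerivAt_id y).unique h5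
      rw [hid, ← ContinuousLinearMap.sub_comp]
      refine ContinuousLinearMap.opNorm_le_bound _ (by positivity) fun v => ?_
      rw [ContinuousLinearMap.comp_apply]
      refine (ContinuousLinearMap.le_opNorm _ _).trans ?_
      have hv : ‖(ContinuousLinearMap.inr ℝ E E) v‖ = ‖v‖ := by
        simp [Prod.norm_def]
      rw [hv]
      refine mul_le_mul_of_nonneg_right ?_ (norm_nonneg _)
      have h6 := hK.dist_le_mul (X, y) (hb1 (hmem X y hX1 hy1)).1 (0, y)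
        (hb1 (hmem 0 y (by simpa using hρ1) hy1)).1
      rw [dist_eq_norm, dist_eq_norm] at h6
      have h7 : ‖((X, y) : E × E) - (0, y)‖ = ‖X‖ := by
        simp [Prod.norm_def]
      rwa [h7] at h6)
    (convex_ball _ _) h0s hYs
  have hX0 : m (X, 0) = X := hb2 (mem_ball_zero_iff.2 hX2)
  have h8 : ‖m (X, Y) - X - Y‖ ≤ K * ‖X‖ * ‖Y‖ := by
    have : m (X, Y) - X - Y = (m (X, Y) - Y) - (m (X, 0) - 0) := by
      rw [hX0]; abel
    rw [this]
    have h9 := hmv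
    simp only [sub_zero] at h9 ⊢
    exact h9
  refine h8.trans ?_
  gcongr
  linarith

/-- if the first `m` powers of a point of the circle stay close to `1`, it is very close to `1` -/
theorem circle_pow_bound (z : Circle) (m : ℕ) (hm : 0 < m)
    (h : ∀ j ≤ m, ‖((z : ℂ)) ^ j - 1‖ < 1) : ‖(z : ℂ) - 1‖ ≤ 2 / m := by
  have hre : ∀ j ≤ m, 1 / 2 ≤ (((z : ℂ)) ^ j).re := by
    intro j hj
    have h1 := h j hj
    have hn : ‖((z : ℂ)) ^ j‖ = 1 := by rw [norm_pow, Circle.norm_coe, one_pow]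
    have h2 : ‖((z : ℂ)) ^ j - 1‖ ^ 2 = 2 - 2 * (((z : ℂ)) ^ j).re := by
      rw [← Complex.normSq_eq_norm_sq, Complex.normSq_sub]
      rw [Complex.normSq_eq_norm_sq, hn]
      simp
      ring
    have h3 : ‖((z : ℂ)) ^ j - 1‖ ^ 2 < 1 := by
      have := norm_nonneg (((z : ℂ)) ^ j - 1)
      nlinarith
    linarith
  have hsum : (∑ j ∈ Finset.range m, ((z : ℂ)) ^ j) * ((z : ℂ) - 1) = (z : ℂ) ^ m - 1 :=
    geom_sum_mul _ _
  have hlow : (m : ℝ) / 2 ≤ ‖∑ j ∈ Finset.range m, ((z : ℂ)) ^ j‖ := by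
    refine le_trans ?_ (Complex.re_le_norm _)
    rw [Complex.re_sum]
    calc (m : ℝ) / 2 = ∑ j ∈ Finset.range m, (1 / 2 : ℝ) := by
          rw [Finset.sum_const, Finset.card_range, nsmul_eq_mul]; ring
      _ ≤ _ := Finset.sum_le_sum fun j hj => hre j (Finset.mem_range.1 hj).le
  have hm' : (0 : ℝ) < m := by exact_mod_cast hm
  have h4 := congrArg norm hsum
  rw [norm_mul] at h4
  have h5 := h m le_rfl
  have h6 : (m : ℝ) / 2 * ‖(z : ℂ) - 1‖ < 1 := by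
    calc (m : ℝ) / 2 * ‖(z : ℂ) - 1‖ ≤ ‖∑ j ∈ Finset.range m, ((z : ℂ)) ^ j‖ * ‖(z : ℂ) - 1‖ :=
          mul_le_mul_of_nonneg_right hlow (norm_nonneg _)
      _ = ‖(z : ℂ) ^ m - 1‖ := h4
      _ < 1 := h5
  rw [le_div_iff₀ hm']
  linarith

section

variable {E : Type*} [NormedAddCommGroup E] [NormedSpace ℝ E]
  {G : Type*} [Group G] [TopologicalSpace G] [ChartedSpace E G] [LieGroup 𝓘(ℝ, E) ∞ G]

/-- size of a group element in the chart at `1` -/
noncomputable def N (E : Type*) [NormedAddCommGroup E] [NormedSpace ℝ E]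
    {G : Type*} [Group G] [TopologicalSpace G] [ChartedSpace E G] (x : G) : ℝ :=
  ‖extChartAt 𝓘(ℝ, E) (1 : G) x - extChartAt 𝓘(ℝ, E) (1 : G) 1‖

theorem symm_contMDiffAt (c : G) : ContMDiffAt 𝓘(ℝ, E) 𝓘(ℝ, E) ∞
    (extChartAt 𝓘(ℝ, E) c).symm (extChartAt 𝓘(ℝ, E) c c) :=
  (contMDiffOn_extChartAt_symm c).contMDiffAt (extChartAt_target_mem_nhds c)

theorem symm_self (c : G) :
    (extChartAt 𝓘(ℝ, E) c).symm (extChartAt 𝓘(ℝ, E) c c) = c :=
  (extChartAt 𝓘(ℝ, E) c).left_inv (mem_extChartAt_source c)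

/-- multiplication in the centred chart -/
noncomputable def mm (E : Type*) [NormedAddCommGroup E] [NormedSpace ℝ E]
    (G : Type*) [Group G] [TopologicalSpace G] [ChartedSpace E G] (p : E × E) : E :=
  extChartAt 𝓘(ℝ, E) (1 : G)
    ((extChartAt 𝓘(ℝ, E) (1 : G)).symm (p.1 + extChartAt 𝓘(ℝ, E) (1 : G) 1) *
      (extChartAt 𝓘(ℝ, E) (1 : G)).symm (p.2 + extChartAt 𝓘(ℝ, E) (1 : G) 1)) -
    extChartAt 𝓘(ℝ, E) (1 : G) 1

theorem pre_contMDiffAt {f : E × E → E} {p : E × E} (hf : ContDiffAt ℝ ∞ f p) (c : G)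
    (hfp : f p = extChartAt 𝓘(ℝ, E) c c) :
    ContMDiffAt 𝓘(ℝ, E × E) 𝓘(ℝ, E) ∞ (fun q => (extChartAt 𝓘(ℝ, E) c).symm (f q)) p := by
  refine ContMDiffAt.comp p ?_ hf.contMDiffAt
  rw [hfp]
  exact symm_contMDiffAt c

theorem mm_contDiffAt : ContDiffAt ℝ ∞ (mm E G) 0 := by
  rw [← contMDiffAt_iff_contDiffAt]
  have h1 : ContMDiffAt 𝓘(ℝ, E × E) 𝓘(ℝ, E) ∞
      (fun p : E × E => (extChartAt 𝓘(ℝ, E) (1 : G)).symm
        (p.1 + extChartAt 𝓘(ℝ, E) (1 : G) 1)) 0 :=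
    pre_contMDiffAt (by fun_prop) 1 (by simp)
  have h2 : ContMDiffAt 𝓘(ℝ, E × E) 𝓘(ℝ, E) ∞
      (fun p : E × E => (extChartAt 𝓘(ℝ, E) (1 : G)).symm
        (p.2 + extChartAt 𝓘(ℝ, E) (1 : G) 1)) 0 :=
    pre_contMDiffAt (by fun_prop) 1 (by simp)
  have h3 := h1.mul h2
  have h4 : ContMDiffAt 𝓘(ℝ, E × E) 𝓘(ℝ, E) ∞ (fun p : E × E => extChartAt 𝓘(ℝ, E) (1 : G)
      ((extChartAt 𝓘(ℝ, E) (1 : G)).symm (p.1 + extChartAt 𝓘(ℝ, E) (1 : G) 1) *
      (extChartAt 𝓘(ℝ, E) (1 : G)).symm (p.2 + extChartAt 𝓘(ℝ, E) (1 : G) 1))) 0 := by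
    refine ContMDiffAt.comp (0 : E × E) (I' := 𝓘(ℝ, E)) ?_ h3
    simp only [Prod.fst_zero, Prod.snd_zero, zero_add, symm_self, mul_one]
    exact contMDiffAt_extChartAt
  rw [contMDiffAt_iff_contDiffAt] at h4 ⊢
  exact h4.sub contDiffAt_const

theorem mm_apply {x y : G} (hx : x ∈ (extChartAt 𝓘(ℝ, E) (1 : G)).source)
    (hy : y ∈ (extChartAt 𝓘(ℝ, E) (1 : G)).source) :
    mm E G (extChartAt 𝓘(ℝ, E) (1 : G) x - extChartAt 𝓘(ℝ, E) (1 : G) 1,
      extChartAt 𝓘(ℝ, E) (1 : G) y - extChartAt 𝓘(ℝ, E) (1 : G) 1) =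
      extChartAt 𝓘(ℝ, E) (1 : G) (x * y) - extChartAt 𝓘(ℝ, E) (1 : G) 1 := by
  unfold mm
  simp only [sub_add_cancel]
  rw [(extChartAt 𝓘(ℝ, E) (1 : G)).left_inv hx, (extChartAt 𝓘(ℝ, E) (1 : G)).left_inv hy]

/-- small elements in the chart are small -/
theorem small_of_N {W : Set G} (hW : W ∈ 𝓝 (1 : G)) : ∃ r : ℝ, 0 < r ∧ ∀ x : G,
    x ∈ (extChartAt 𝓘(ℝ, E) (1 : G)).source → N E x < r → x ∈ W := by
  have hc : ContinuousAt (extChartAt 𝓘(ℝ, E) (1 : G)).symm (extChartAt 𝓘(ℝ, E) (1 : G) 1) :=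
    continuousAt_extChartAt_symm (1 : G)
  have hW' : W ∈ 𝓝 ((extChartAt 𝓘(ℝ, E) (1 : G)).symm (extChartAt 𝓘(ℝ, E) (1 : G) 1)) := by
    rw [symm_self]; exact hW
  obtain ⟨r, hr, hb⟩ := Metric.mem_nhds_iff.1 (hc hW')
  refine ⟨r, hr, fun x hx hN => ?_⟩
  have h1 : extChartAt 𝓘(ℝ, E) (1 : G) x ∈ Metric.ball (extChartAt 𝓘(ℝ, E) (1 : G) 1) r := by
    rw [Metric.mem_ball, dist_eq_norm]; exact hN
  have h2 := hb h1
  rw [Set.mem_preimage, (extChartAt 𝓘(ℝ, E) (1 : G)).left_inv hx] at h2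
  exact h2

theorem N_mul_le : ∃ ρ : ℝ, 0 < ρ ∧ ∃ L : ℝ, 0 < L ∧ ∀ x y : G,
    x ∈ (extChartAt 𝓘(ℝ, E) (1 : G)).source → y ∈ (extChartAt 𝓘(ℝ, E) (1 : G)).source →
    N E x < ρ → N E y < ρ → x * y ∈ (extChartAt 𝓘(ℝ, E) (1 : G)).source ∧
      N E (x * y) ≤ N E x + N E y + L * N E x * N E y := by
  have hG : IsTopologicalGroup G := topologicalGroup_of_lieGroup 𝓘(ℝ, E) ∞
  have htar := extChartAt_target_mem_nhds (I := 𝓘(ℝ, E)) (1 : G)
  have hev : ∀ᶠ X in 𝓝 (0 : E), X + extChartAt 𝓘(ℝ, E) (1 : G) 1 ∈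
      (extChartAt 𝓘(ℝ, E) (1 : G)).target := by
    have hc : ContinuousAt (fun X : E => X + extChartAt 𝓘(ℝ, E) (1 : G) 1) 0 := by fun_prop
    apply hc
    simpa using htar
  have h1 : ∀ᶠ X in 𝓝 (0 : E), mm E G (X, 0) = X := by
    filter_upwards [hev] with X hX
    unfold mm
    simp only [zero_add, symm_self, mul_one]
    rw [(extChartAt 𝓘(ℝ, E) (1 : G)).right_inv hX, add_sub_cancel_right]
  have h2 : ∀ᶠ X in 𝓝 (0 : E), mm E G (0, X) = X := by
    filter_upwards [hev] with X hX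
    unfold mm
    simp only [zero_add, symm_self, one_mul]
    rw [(extChartAt 𝓘(ℝ, E) (1 : G)).right_inv hX, add_sub_cancel_right]
  obtain ⟨ρ, hρ, L, hL, hbd⟩ := mul_bound
    ((mm_contDiffAt (E := E) (G := G)).of_le (by norm_cast)) h1 h2
  -- products of small elements are in the source
  have hsrc : (extChartAt 𝓘(ℝ, E) (1 : G)).source ∈ 𝓝 ((1 : G) * 1) := by
    rw [mul_one]; exact extChartAt_source_mem_nhds (1 : G)
  have hmul : ContinuousAt (fun p : G × G => p.1 * p.2) ((1 : G), (1 : G)) :=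
    continuous_mul.continuousAt
  have hpre := hmul hsrc
  rw [nhds_prod_eq] at hpre
  obtain ⟨W1, hW1, W2, hW2, hsub⟩ := Filter.mem_prod_iff.1 hpre
  obtain ⟨r1, hr1, hw1⟩ := small_of_N (E := E) hW1
  obtain ⟨r2, hr2, hw2⟩ := small_of_N (E := E) hW2
  refine ⟨min ρ (min r1 r2), lt_min hρ (lt_min hr1 hr2), L, hL, ?_⟩
  intro x y hx hy hNx hNy
  refine ⟨?_, ?_⟩
  · have hx' := hw1 x hx (hNx.trans_le ((min_le_right _ _).trans (min_le_left _ _)))
    have hy' := hw2 y hy (hNy.trans_le ((min_le_right _ _).trans (min_le_right _ _)))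
    exact hsub (Set.mk_mem_prod hx' hy')
  · have h3 := hbd (extChartAt 𝓘(ℝ, E) (1 : G) x - extChartAt 𝓘(ℝ, E) (1 : G) 1)
      (extChartAt 𝓘(ℝ, E) (1 : G) y - extChartAt 𝓘(ℝ, E) (1 : G) 1)
      (hNx.trans_le (min_le_left _ _)) (hNy.trans_le (min_le_left _ _))
    rw [mm_apply hx hy] at h3
    have h4 : ∀ a b c : E, ‖a‖ ≤ ‖b‖ + ‖c‖ + ‖a - b - c‖ := by
      intro a b c
      have : a = b + c + (a - b - c) := by abel
      calc ‖a‖ = ‖b + c + (a - b - c)‖ := by rw [← this]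
        _ ≤ ‖b + c‖ + ‖a - b - c‖ := norm_add_le _ _
        _ ≤ ‖b‖ + ‖c‖ + ‖a - b - c‖ := by gcongr; exact norm_add_le _ _
    exact (h4 _ _ _).trans (add_le_add le_rfl h3)

theorem N_nonneg (x : G) : 0 ≤ N E x := norm_nonneg _

theorem char_near_one (H : Subgroup G) (ξ : G → Circle)
    (hmul : ∀ h ∈ H, ∀ h' ∈ H, ξ (h * h') = ξ h * ξ h') (hcont : ContinuousOn ξ (H : Set G)) :
    ∃ r : ℝ, 0 < r ∧ ∃ K : ℝ, 0 ≤ K ∧ ∀ x ∈ H, x ∈ (extChartAt 𝓘(ℝ, E) (1 : G)).source →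
      N E x < r → ‖((ξ x : Circle) : ℂ) - 1‖ ≤ K * N E x := by
  obtain ⟨ρ, hρ, L, hL, hNmul⟩ := N_mul_le (E := E) (G := G)
  have hone : ξ 1 = 1 := by
    have := hmul 1 H.one_mem 1 H.one_mem
    rw [mul_one] at this
    exact left_eq_mul.1 this
  -- neighbourhood where the character is within 1 of 1
  obtain ⟨W, hW, hWξ⟩ : ∃ W ∈ 𝓝 (1 : G), ∀ x ∈ H, x ∈ W → ‖((ξ x : Circle) : ℂ) - 1‖ < 1 := by
    have h1 : ContinuousWithinAt ξ (H : Set G) 1 := hcont 1 H.one_mem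
    have h2 : {z : Circle | ‖(z : ℂ) - 1‖ < 1} ∈ 𝓝 (ξ 1) := by
      rw [hone]
      apply IsOpen.mem_nhds
      · apply isOpen_lt _ continuous_const
        fun_prop
      · simp
    obtain ⟨W, hW, hsub⟩ := mem_nhdsWithin_iff_exists_mem_nhds_inter.1 (h1 h2)
    exact ⟨W, hW, fun x hx hxW => hsub ⟨hxW, hx⟩⟩
  obtain ⟨r1, hr1, hr1W⟩ := small_of_N (E := E) hW
  set r0 := min ρ r1 with hr0
  have hr0pos : 0 < r0 := lt_min hρ hr1
  -- choice of δ
  obtain ⟨δ, hδ, hexp⟩ : ∃ δ : ℝ, 0 < δ ∧ Real.exp (L * δ) < 1 + L * r0 := by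
    have h1 : Tendsto (fun d : ℝ => Real.exp (L * d)) (𝓝[>] 0) (𝓝 1) := by
      have : ContinuousAt (fun d : ℝ => Real.exp (L * d)) 0 := by fun_prop
      have h2 := this.tendsto
      simp only [mul_zero, Real.exp_zero] at h2
      exact h2.mono_left nhdsWithin_le_nhds
    have h3 := (h1.eventually (gt_mem_nhds (show (1 : ℝ) < 1 + L * r0 by
      have := mul_pos hL hr0pos; linarith))).and self_mem_nhdsWithin
    obtain ⟨d, hd1, hd2⟩ := h3.exists
    exact ⟨d, hd2, hd1⟩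
  refine ⟨min δ r0, lt_min hδ hr0pos, 4 / δ, by positivity, ?_⟩
  intro x hxH hxs hxN
  rcases (N_nonneg (E := E) x).eq_or_lt with h0 | hpos
  · -- x = 1
    have hx1 : x = 1 := by
      have h1 : extChartAt 𝓘(ℝ, E) (1 : G) x = extChartAt 𝓘(ℝ, E) (1 : G) 1 := by
        have : ‖extChartAt 𝓘(ℝ, E) (1 : G) x - extChartAt 𝓘(ℝ, E) (1 : G) 1‖ = 0 := h0.symm
        exact sub_eq_zero.1 (norm_eq_zero.1 this)
      exact (extChartAt 𝓘(ℝ, E) (1 : G)).injOn hxs (mem_extChartAt_source 1) h1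
    rw [← h0, hx1, hone]
    simp
  · have hNδ : N E x < δ := hxN.trans_le (min_le_left _ _)
    have hNr : N E x < r0 := hxN.trans_le (min_le_right _ _)
    set m : ℕ := ⌊δ / N E x⌋₊ with hm
    have hm1 : 1 ≤ m := by
      rw [hm, Nat.one_le_floor_iff, le_div_iff₀ hpos]
      linarith
    have hmle : (m : ℝ) * N E x ≤ δ := by
      have := Nat.floor_le (show 0 ≤ δ / N E x by positivity)
      rwa [← hm, le_div_iff₀ hpos] at this
    have hmge : δ / N E x < 2 * m := by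
      have := Nat.lt_floor_add_one (δ / N E x)
      rw [← hm] at this
      have h1 : (1 : ℝ) ≤ m := by exact_mod_cast hm1
      linarith
    have hgrow : ∀ j : ℕ, 1 ≤ j → j ≤ m → x ^ j ∈ (extChartAt 𝓘(ℝ, E) (1 : G)).source ∧
        1 + L * N E (x ^ j) ≤ (1 + L * N E x) ^ j := by
      have hsmall : ∀ j : ℕ, j ≤ m → (1 + L * N E x) ^ j < 1 + L * r0 := by
        intro j hj
        calc (1 + L * N E x) ^ j ≤ (Real.exp (L * N E x)) ^ j := by
              have h1 : 1 + L * N E x ≤ Real.exp (L * N E x) := by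
                have := Real.add_one_le_exp (L * N E x)
                linarith
              have h2 : 0 ≤ 1 + L * N E x := by positivity
              gcongr
          _ = Real.exp (L * (j * N E x)) := by rw [← Real.exp_nat_mul]; ring_nf
          _ ≤ Real.exp (L * δ) := by
              apply Real.exp_le_exp.2
              apply mul_le_mul_of_nonneg_left _ hL.le
              refine le_trans ?_ hmle
              have : (j : ℝ) ≤ m := by exact_mod_cast hj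
              gcongr
          _ < 1 + L * r0 := hexp
      intro j hj1
      induction j, hj1 using Nat.le_induction with
      | base => intro _; simpa using hxs
      | succ j hj ih =>
        intro hjm
        obtain ⟨hs, hb⟩ := ih (by omega)
        have h1 : N E (x ^ j) < r0 := by
          have h2 := hb.trans_lt (hsmall j (by omega))
          have h3 : L * N E (x ^ j) < L * r0 := by linarith
          exact lt_of_mul_lt_mul_left h3 hL.le
        obtain ⟨h4, h5⟩ := hNmul (x ^ j) x hs hxs (h1.trans_le (min_le_left _ _))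
          (hNr.trans_le (min_le_left _ _))
        rw [← pow_succ] at h4 h5
        refine ⟨h4, ?_⟩
        calc 1 + L * N E (x ^ (j + 1)) ≤
            1 + L * (N E (x ^ j) + N E x + L * N E (x ^ j) * N E x) := by gcongr
          _ = (1 + L * N E (x ^ j)) * (1 + L * N E x) := by ring
          _ ≤ (1 + L * N E x) ^ j * (1 + L * N E x) := by gcongr
          _ = (1 + L * N E x) ^ (j + 1) := by ring
    have hsmall : ∀ j : ℕ, 1 ≤ j → j ≤ m → N E (x ^ j) < r0 := by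
      intro j hj1 hj
      obtain ⟨hs, hb⟩ := hgrow j hj1 hj
      have h2 : (1 + L * N E x) ^ j < 1 + L * r0 := by
        calc (1 + L * N E x) ^ j ≤ (Real.exp (L * N E x)) ^ j := by
              have h1 : 1 + L * N E x ≤ Real.exp (L * N E x) := by
                have := Real.add_one_le_exp (L * N E x)
                linarith
              have h2 : 0 ≤ 1 + L * N E x := by positivity
              gcongr
          _ = Real.exp (L * (j * N E x)) := by rw [← Real.exp_nat_mul]; ring_nf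
          _ ≤ Real.exp (L * δ) := by
              apply Real.exp_le_exp.2
              apply mul_le_mul_of_nonneg_left _ hL.le
              refine le_trans ?_ hmle
              have : (j : ℝ) ≤ m := by exact_mod_cast hj
              gcongr
          _ < 1 + L * r0 := hexp
      have h3 : L * N E (x ^ j) < L * r0 := by linarith
      exact lt_of_mul_lt_mul_left h3 hL.le
    have hpow : ∀ j : ℕ, ξ (x ^ j) = ξ x ^ j := by
      intro j
      induction j with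
      | zero => simpa using hone
      | succ j ih =>
        rw [pow_succ, hmul _ (H.pow_mem hxH j) _ hxH, ih, pow_succ]
    have hbound := circle_pow_bound (ξ x) m hm1 (by
      intro j hj
      rcases Nat.eq_zero_or_pos j with rfl | hj1
      · simp
      · have h1 := hWξ (x ^ j) (H.pow_mem hxH j)
          (hr1W _ (hgrow j hj1 hj).1 ((hsmall j hj1 hj).trans_le (min_le_right _ _)))
        rw [hpow, Circle.coe_pow] at h1
        exact h1)
    refine hbound.trans ?_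
    have hm' : (0 : ℝ) < m := by exact_mod_cast hm1
    rw [div_le_iff₀ hm']
    have h7 : δ < 2 * m * N E x := by
      rwa [div_lt_iff₀ hpos] at hmge
    have h8 : (2 : ℝ) = 2 / δ * δ := by field_simp
    calc (2 : ℝ) = 2 / δ * δ := h8
      _ ≤ 2 / δ * (2 * m * N E x) := by
          apply mul_le_mul_of_nonneg_left h7.le (by positivity)
      _ = 4 / δ * N E x * m := by ring

end

end S1a

open S1a

theorem char_lipschitz {E : Type*} [NormedAddCommGroup E] [NormedSpace ℝ E]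
    [FiniteDimensional ℝ E] {G : Type*} [Group G] [TopologicalSpace G] [T2Space G]
    [ChartedSpace E G] [LieGroup 𝓘(ℝ, E) ∞ G] (H : Subgroup G) (ξ : G → Circle)
    (hmul : ∀ h ∈ H, ∀ h' ∈ H, ξ (h * h') = ξ h * ξ h') (hcont : ContinuousOn ξ (H : Set G))
    (c : G) :
    ∃ V ∈ 𝓝 c, ∃ K : ℝ, 0 ≤ K ∧ ∀ h ∈ H, h ∈ V → ∀ h' ∈ H, h' ∈ V →
      ‖((ξ h : Circle) : ℂ) - ((ξ h' : Circle) : ℂ)‖ ≤
        K * ‖extChartAt 𝓘(ℝ, E) c h - extChartAt 𝓘(ℝ, E) c h'‖ := by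
  have hG : IsTopologicalGroup G := topologicalGroup_of_lieGroup 𝓘(ℝ, E) ∞
  obtain ⟨r, hr, K, hK, hξ⟩ := char_near_one (E := E) H ξ hmul hcont
  -- division in the charts
  let D : E × E → E := fun p => extChartAt 𝓘(ℝ, E) (1 : G)
    ((extChartAt 𝓘(ℝ, E) c).symm p.1 * ((extChartAt 𝓘(ℝ, E) c).symm p.2)⁻¹)
  have hD : ContDiffAt ℝ ∞ D (extChartAt 𝓘(ℝ, E) c c, extChartAt 𝓘(ℝ, E) c c) := by
    rw [← contMDiffAt_iff_contDiffAt]
    have h1 : ContMDiffAt 𝓘(ℝ, E × E) 𝓘(ℝ, E) ∞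
        (fun p : E × E => (extChartAt 𝓘(ℝ, E) c).symm p.1)
        (extChartAt 𝓘(ℝ, E) c c, extChartAt 𝓘(ℝ, E) c c) :=
      pre_contMDiffAt (by fun_prop) c rfl
    have h2 : ContMDiffAt 𝓘(ℝ, E × E) 𝓘(ℝ, E) ∞
        (fun p : E × E => (extChartAt 𝓘(ℝ, E) c).symm p.2)
        (extChartAt 𝓘(ℝ, E) c c, extChartAt 𝓘(ℝ, E) c c) :=
      pre_contMDiffAt (by fun_prop) c rfl
    have h3 := h1.mul h2.inv
    refine ContMDiffAt.comp (extChartAt 𝓘(ℝ, E) c c, extChartAt 𝓘(ℝ, E) c c)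
      (I' := 𝓘(ℝ, E)) ?_ h3
    simp only [mul_inv_cancel]
    exact contMDiffAt_extChartAt
  obtain ⟨K3, t, ht, hLip⟩ := (hD.of_le (by exact_mod_cast le_top) :
    ContDiffAt ℝ 1 D _).exists_lipschitzOnWith
  obtain ⟨s, hs, hball⟩ := Metric.mem_nhds_iff.1 ht
  -- the neighbourhood
  have hdiv : ContinuousAt (fun p : G × G => p.1 * p.2⁻¹) (c, c) := by fun_prop
  have hc1 : (fun p : G × G => p.1 * p.2⁻¹) (c, c) = 1 := mul_inv_cancel c
  have hsrc : {x : G | x ∈ (extChartAt 𝓘(ℝ, E) (1 : G)).source ∧ N E x < r} ∈ 𝓝 (1 : G) := by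
    refine Filter.inter_mem (extChartAt_source_mem_nhds (1 : G)) ?_
    have h1 : ContinuousAt (fun x : G => N E x) 1 := by
      unfold N
      exact ((continuousAt_extChartAt (1 : G)).sub continuousAt_const).norm
    have h2 : N E (1 : G) < r := by
      unfold N
      simpa using hr
    exact h1 (gt_mem_nhds h2)
  have hpre : (fun p : G × G => p.1 * p.2⁻¹) ⁻¹'
      {x : G | x ∈ (extChartAt 𝓘(ℝ, E) (1 : G)).source ∧ N E x < r} ∈ 𝓝 ((c, c) : G × G) := by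
    apply hdiv
    rw [hc1]
    exact hsrc
  rw [nhds_prod_eq] at hpre
  obtain ⟨W1, hW1, W2, hW2, hsub⟩ := Filter.mem_prod_iff.1 hpre
  refine ⟨(W1 ∩ W2) ∩ ((extChartAt 𝓘(ℝ, E) c).source ∩
    (extChartAt 𝓘(ℝ, E) c) ⁻¹' Metric.ball (extChartAt 𝓘(ℝ, E) c c) s), ?_, K * K3,
    by positivity, ?_⟩
  · refine Filter.inter_mem (Filter.inter_mem hW1 hW2)
      (Filter.inter_mem (extChartAt_source_mem_nhds c) ?_)
    exact (continuousAt_extChartAt c).preimage_mem_nhds (Metric.ball_mem_nhds _ hs)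
  · rintro h hh ⟨⟨hV1, hV2⟩, hVs, hVb⟩ h' hh' ⟨⟨hV1', hV2'⟩, hVs', hVb'⟩
    obtain ⟨hq1, hq2⟩ := hsub (Set.mk_mem_prod hV1 hV2')
    have hmem : h * h'⁻¹ ∈ H := H.mul_mem hh (H.inv_mem hh')
    have h1 := hξ (h * h'⁻¹) hmem hq1 hq2
    have h2 : ξ h = ξ (h * h'⁻¹) * ξ h' := by
      rw [← hmul _ hmem _ hh', inv_mul_cancel_right]
    have h3 : ((ξ h : Circle) : ℂ) - ((ξ h' : Circle) : ℂ) =
        (((ξ (h * h'⁻¹) : Circle) : ℂ) - 1) * ((ξ h' : Circle) : ℂ) := by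
      rw [h2, Circle.coe_mul]; ring
    rw [h3, norm_mul, Circle.norm_coe, mul_one]
    refine h1.trans ?_
    rw [mul_assoc]
    refine mul_le_mul_of_nonneg_left ?_ hK
    have hb : ∀ X Y : E, X ∈ Metric.ball (extChartAt 𝓘(ℝ, E) c c) s →
        Y ∈ Metric.ball (extChartAt 𝓘(ℝ, E) c c) s → (X, Y) ∈ t := by
      intro X Y hX hY
      apply hball
      rw [Metric.mem_ball, Prod.dist_eq]
      exact max_lt hX hY
    have h4 := hLip.dist_le_mul _ (hb _ _ hVb hVb') _ (hb _ _ hVb' hVb')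
    have h5 : D (extChartAt 𝓘(ℝ, E) c h, extChartAt 𝓘(ℝ, E) c h') =
        extChartAt 𝓘(ℝ, E) (1 : G) (h * h'⁻¹) := by
      show extChartAt 𝓘(ℝ, E) (1 : G) ((extChartAt 𝓘(ℝ, E) c).symm (extChartAt 𝓘(ℝ, E) c h) *
        ((extChartAt 𝓘(ℝ, E) c).symm (extChartAt 𝓘(ℝ, E) c h'))⁻¹) = _
      rw [(extChartAt 𝓘(ℝ, E) c).left_inv hVs, (extChartAt 𝓘(ℝ, E) c).left_inv hVs']
    have h6 : D (extChartAt 𝓘(ℝ, E) c h', extChartAt 𝓘(ℝ, E) c h') =
        extChartAt 𝓘(ℝ, E) (1 : G) 1 := by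
      show extChartAt 𝓘(ℝ, E) (1 : G) ((extChartAt 𝓘(ℝ, E) c).symm (extChartAt 𝓘(ℝ, E) c h') *
        ((extChartAt 𝓘(ℝ, E) c).symm (extChartAt 𝓘(ℝ, E) c h'))⁻¹) = _
      rw [mul_inv_cancel]
    rw [h5, h6, dist_eq_norm, dist_eq_norm] at h4
    refine h4.trans (le_of_eq ?_)
    congr 1
    simp [Prod.norm_def]

end Pool.Agent.TH286.NC
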