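import Pool.Agent.TH296.NC.Defs2
import Pool.Agent.Helper472.Lat_Chars

set_option autoImplicit false

/-! More Lipschitz characters than the dimension are dependent (job NC-S1b). -/

open Filter Topology Finset MeasureTheory
open scoped commutatorElement Manifold ContDiff

namespace Pool.Agent.TH286.NC

open Pool.Agent.TH296.NC

namespace S1b

section circle
open MeasureTheory AddCircle

theorem fourier_add_arg {T : ℝ} (n : ℤ) (x y : AddCircle T) :
    fourier n (x + y) = fourier n x * fourier n y := by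
  simp only [fourier_apply, smul_add, toCircle_add, Circle.coe_mul]

/-- Continuous characters of the circle are powers. -/
theorem circle_char (k : Circle →* Circle) (hk : Continuous k) : ∃ n : ℤ, ∀ z, k z = z ^ n := by
  have : Fact ((0 : ℝ) < 1) := ⟨one_pos⟩
  let f : C(AddCircle (1 : ℝ), ℂ) :=
    ⟨fun x => (k (toCircle x) : ℂ), by
      exact continuous_subtype_val.comp (hk.comp AddCircle.continuous_toCircle)⟩
  have hf : ∀ x, f x = (k (toCircle x) : ℂ) := fun x => rfl
  have hadd : ∀ x y, f (x + y) = f x * f y := by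
    intro x y
    rw [hf, hf, hf, toCircle_add, map_mul, Circle.coe_mul]
  have hnorm : ∀ x, ‖f x‖ = 1 := fun x => by rw [hf]; exact Circle.norm_coe _
  have hex : ∃ n : ℤ, fourierCoeff f n ≠ 0 := by
    by_contra hcon
    push Not at hcon
    have h1 := tsum_sq_fourierCoeff (ContinuousMap.toLp (E := ℂ) 2 haarAddCircle ℂ f)
    have h2 : ∀ n : ℤ, fourierCoeff (ContinuousMap.toLp (E := ℂ) 2 haarAddCircle ℂ f) n = 0 :=
      fun n => by rw [fourierCoeff_toLp]; exact hcon n
    simp only [h2, norm_zero, ne_eq, OfNat.ofNat_ne_zero, not_false_eq_true, zero_pow,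
      tsum_zero] at h1
    have h3 : ∫ t, ‖(ContinuousMap.toLp (E := ℂ) 2 haarAddCircle ℂ f) t‖ ^ 2
        ∂(haarAddCircle : Measure (AddCircle (1 : ℝ))) = 1 := by
      have h4 : (fun t => ‖(ContinuousMap.toLp (E := ℂ) 2 haarAddCircle ℂ f) t‖ ^ 2)
          =ᵐ[haarAddCircle] fun _ => (1 : ℝ) := by
        filter_upwards [ContinuousMap.coeFn_toLp (E := ℂ) (p := 2) (𝕜 := ℂ) haarAddCircle f]
          with t ht
        rw [ht, hnorm]; norm_num
      rw [integral_congr_ae h4]; simp
    rw [h3] at h1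
    exact zero_ne_one h1
  obtain ⟨n, hn⟩ := hex
  refine ⟨n, ?_⟩
  have key : ∀ y, f y = fourier n y := by
    intro y
    have h1 : fourierCoeff f n = (fourier (-n) y * f y) * fourierCoeff f n := by
      unfold fourierCoeff
      calc ∫ t, fourier (-n) t • f t ∂haarAddCircle
          = ∫ t, fourier (-n) (t + y) • f (t + y) ∂haarAddCircle :=
            (integral_add_right_eq_self (fun t => fourier (-n) t • f t) y).symm
        _ = ∫ t, (fourier (-n) y * f y) * (fourier (-n) t • f t) ∂haarAddCircle := by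
            congr 1; ext t
            rw [fourier_add_arg, hadd]
            simp only [smul_eq_mul]; ring
        _ = (fourier (-n) y * f y) * ∫ t, fourier (-n) t • f t ∂haarAddCircle :=
            integral_const_mul _ _
    have h2 : fourier (-n) y * f y = 1 := by
      have h3 : (fourier (-n) y * f y - 1) * fourierCoeff f n = 0 := by
        rw [sub_mul, one_mul, ← h1, sub_self]
      rcases mul_eq_zero.1 h3 with h | h
      · exact sub_eq_zero.1 h
      · exact absurd h hn
    have h4 : fourier n y * fourier (-n) y = (1 : ℂ) := by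
      rw [← fourier_add, add_neg_cancel, fourier_zero]
    calc f y = (fourier n y * fourier (-n) y) * f y := by rw [h4, one_mul]
      _ = fourier n y * (fourier (-n) y * f y) := by ring
      _ = fourier n y := by rw [h2, mul_one]
  intro z
  obtain ⟨x, rfl⟩ : ∃ x : AddCircle (1 : ℝ), toCircle x = z :=
    ⟨(AddCircle.homeomorphCircle one_ne_zero).symm z, by
      have := (AddCircle.homeomorphCircle (T := 1) one_ne_zero).apply_symm_apply z
      rwa [AddCircle.homeomorphCircle_apply] at this⟩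
  have h5 := key x
  rw [hf, fourier_apply] at h5
  have h6 := Circle.coe_injective h5
  rw [h6]
  exact toCircle_zsmul _ _

end circle


/-- continuous characters of the torus are monomials -/
theorem torus_char {r : ℕ} (ψ : (Fin r → Circle) →* Circle) (hψ : Continuous ψ) :
    ∃ t : Fin r → ℤ, ∀ z, ψ z = ∏ j, z j ^ t j := by
  classical
  have h1 : ∀ j : Fin r, ∃ n : ℤ, ∀ z : Circle, ψ (Pi.mulSingle j z) = z ^ n := by
    intro j
    refine circle_char (ψ.comp (MonoidHom.mulSingle (fun _ => Circle) j)) ?_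
    refine hψ.comp ?_
    exact continuous_mulSingle (A := fun _ : Fin r => Circle) j
  choose t ht using h1
  refine ⟨t, fun z => ?_⟩
  calc ψ z = ψ (∏ j, Pi.mulSingle j (z j)) := by rw [Finset.univ_prod_mulSingle]
    _ = ∏ j, ψ (Pi.mulSingle j (z j)) := map_prod _ _ _
    _ = ∏ j, z j ^ t j := by simp only [ht]

/-- a proper closed subgroup of the torus satisfies a nontrivial relation -/
theorem exists_relation {r : ℕ} (A : Subgroup (Fin r → Circle)) (hA : IsClosed (A : Set (Fin r → Circle)))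
    (hne : A ≠ ⊤) : ∃ t : Fin r → ℤ, t ≠ 0 ∧ ∀ z ∈ A, ∏ j, z j ^ t j = 1 := by
  classical
  obtain ⟨k, hk⟩ : ∃ k : Fin r → Circle, k ∉ A := by
    by_contra hcon
    push Not at hcon
    exact hne (eq_top_iff.2 fun x _ => hcon x)
  have := hA
  have hcl : IsClosed (A : Set (Fin r → Circle)) := hA
  have hk' : (QuotientGroup.mk k : (Fin r → Circle) ⧸ A) ≠ 1 := by
    rw [ne_eq, QuotientGroup.eq_one_iff]
    exact hk
  have hT2 : T2Space ((Fin r → Circle) ⧸ A) := by
    infer_instance
  obtain ⟨χ, hχ⟩ := Pool.LatH472.chars (QuotientGroup.mk k : (Fin r → Circle) ⧸ A) hk'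
  obtain ⟨t, ht⟩ := torus_char ((χ : ((Fin r → Circle) ⧸ A) →* Circle).comp (QuotientGroup.mk' A))
    (χ.continuous_toFun.comp QuotientGroup.continuous_mk)
  have hval : ∀ z, ∏ j, z j ^ t j = χ (QuotientGroup.mk z : (Fin r → Circle) ⧸ A) := by
    intro z
    rw [← ht]
    rfl
  refine ⟨t, ?_, ?_⟩
  · rintro rfl
    apply hχ
    rw [← hval]
    simp
  · intro z hz
    rw [hval, (QuotientGroup.eq_one_iff z).2 hz]
    exact map_one χ

/-- the coordinate embedding of the torus -/
def emb {r : ℕ} (z : Fin r → Circle) : Fin r → ℂ := fun j => (z j : ℂ)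

theorem emb_cont {r : ℕ} : Continuous (emb (r := r)) := by
  unfold emb
  fun_prop

open Set in
theorem torus_dim {r : ℕ} (S : Set (Fin r → ℂ)) (hS : Set.range (emb (r := r)) ⊆ S) :
    (r : ENNReal) ≤ dimH S := by
  classical
  have hL : LipschitzWith 1 (fun (z : Fin r → ℂ) (j : Fin r) => (z j).im) := by
    apply LipschitzWith.of_dist_le_mul
    intro z w
    rw [NNReal.coe_one, one_mul]
    refine (dist_pi_le_iff dist_nonneg).2 fun j => ?_
    refine le_trans ?_ (dist_le_pi_dist z w j)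
    rw [Real.dist_eq, dist_eq_norm, ← Complex.sub_im]
    exact Complex.abs_im_le_norm _
  have h1 := hL.dimH_image_le S
  refine le_trans ?_ h1
  have h2 : (fun (z : Fin r → ℂ) (j : Fin r) => (z j).im) '' S ∈ 𝓝 (0 : Fin r → ℝ) := by
    refine Filter.mem_of_superset (Metric.ball_mem_nhds _ one_pos) ?_
    intro v hv
    have hv' : ∀ j, |v j| < 1 := by
      intro j
      have h3 := (dist_pi_lt_iff one_pos).1 (Metric.mem_ball.1 hv) j
      simpa [Real.dist_eq] using h3
    refine ⟨emb (fun j => Circle.exp (Real.arcsin (v j))), hS ⟨_, rfl⟩, ?_⟩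
    funext j
    show ((Circle.exp (Real.arcsin (v j)) : Circle) : ℂ).im = v j
    rw [Circle.coe_exp, Complex.exp_ofReal_mul_I_im]
    exact Real.sin_arcsin (abs_lt.1 (hv' j)).1.le (abs_lt.1 (hv' j)).2.le
  rw [Real.dimH_of_mem_nhds h2]
  simp

end S1b

open S1b

theorem char_relation {E : Type*} [NormedAddCommGroup E] [NormedSpace ℝ E]
    [FiniteDimensional ℝ E] {G : Type*} [Group G] [TopologicalSpace G] [T2Space G]
    [ChartedSpace E G] (H : Subgroup G) {r : ℕ} (ξ : Fin r → G → Circle)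
    (hmul : ∀ j, ∀ h ∈ H, ∀ h' ∈ H, ξ j (h * h') = ξ j h * ξ j h')
    (hlip : ∀ j, ∀ c : G, ∃ V ∈ 𝓝 c, ∃ K : ℝ, 0 ≤ K ∧ ∀ h ∈ H, h ∈ V → ∀ h' ∈ H, h' ∈ V →
      ‖((ξ j h : Circle) : ℂ) - ((ξ j h' : Circle) : ℂ)‖ ≤
        K * ‖extChartAt 𝓘(ℝ, E) c h - extChartAt 𝓘(ℝ, E) c h'‖)
    (C : Set G) (hC : IsCompact C) (hcov : ∀ h ∈ H, ∃ c ∈ C, c ∈ H ∧ ∀ j, ξ j c = ξ j h)
    (hr : Module.finrank ℝ E < r) :
    ∃ t : Fin r → ℤ, t ≠ 0 ∧ ∀ h ∈ H, ∏ j, ξ j h ^ t j = 1 := by
  classical
  -- local pieces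
  have hloc : ∀ c : G, ∃ V ∈ 𝓝 c, ∃ T : Set (Fin r → ℂ), IsCompact T ∧
      dimH T ≤ Module.finrank ℝ E ∧ ∀ h ∈ H, h ∈ V → emb (fun j => ξ j h) ∈ T := by
    intro c
    choose V hV K hK hVK using fun j => hlip j c
    set φ := extChartAt 𝓘(ℝ, E) c with hφ
    set W : Set G := (⋂ j, V j) ∩ (φ.source ∩ φ ⁻¹' Metric.closedBall (φ c) 1) with hW
    have hWn : W ∈ 𝓝 c := by
      refine Filter.inter_mem ((Filter.iInter_mem).2 hV) (Filter.inter_mem ?_ ?_)
      · exact extChartAt_source_mem_nhds c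
      · exact (continuousAt_extChartAt c).preimage_mem_nhds (Metric.closedBall_mem_nhds _ one_pos)
    set K0 : NNReal := ∑ j, Real.toNNReal (K j) with hK0
    have hKle : ∀ j, K j ≤ K0 := by
      intro j
      have h1 : Real.toNNReal (K j) ≤ K0 :=
        Finset.single_le_sum (f := fun j => Real.toNNReal (K j)) (fun _ _ => zero_le)
          (Finset.mem_univ j)
      calc K j = ((Real.toNNReal (K j) : NNReal) : ℝ) := (Real.coe_toNNReal _ (hK j)).symm
        _ ≤ K0 := by exact_mod_cast h1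
    set f : E → (Fin r → ℂ) := fun e => emb (fun j => ξ j (φ.symm e)) with hf
    have hfL : LipschitzOnWith K0 f (φ '' {h | h ∈ H ∧ h ∈ W}) := by
      apply LipschitzOnWith.of_dist_le_mul
      rintro _ ⟨h, ⟨hh, hhW⟩, rfl⟩ _ ⟨h', ⟨hh', hhW'⟩, rfl⟩
      refine (dist_pi_le_iff (by positivity)).2 fun j => ?_
      show dist ((ξ j (φ.symm (φ h)) : Circle) : ℂ) ((ξ j (φ.symm (φ h')) : Circle) : ℂ) ≤ _
      rw [φ.left_inv hhW.2.1, φ.left_inv hhW'.2.1, dist_eq_norm, dist_eq_norm]
      refine (hVK j h hh (Set.mem_iInter.1 hhW.1 j) h' hh' (Set.mem_iInter.1 hhW'.1 j)).trans ?_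
      exact mul_le_mul_of_nonneg_right (hKle j) (norm_nonneg _)
    obtain ⟨g, hg, hgf⟩ := hfL.extend_finite_dimension
    refine ⟨W, hWn, g '' Metric.closedBall (φ c) 1,
      (isCompact_closedBall _ _).image hg.continuous, ?_, ?_⟩
    · refine (hg.dimH_image_le _).trans ?_
      refine (dimH_mono (Set.subset_univ _)).trans ?_
      rw [Real.dimH_univ_eq_finrank]
    · intro h hh hhW
      refine ⟨φ h, hhW.2.2, ?_⟩
      rw [← hgf ⟨h, ⟨hh, hhW⟩, rfl⟩]
      show emb (fun j => ξ j (φ.symm (φ h))) = _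
      rw [φ.left_inv hhW.2.1]
  choose V hV T hTc hTd hVT using hloc
  obtain ⟨s, hs, hsC⟩ := hC.elim_nhds_subcover V (fun c _ => hV c)
  have hone : ∀ j, ξ j 1 = 1 := by
    intro j
    have := hmul j 1 H.one_mem 1 H.one_mem
    rw [mul_one] at this
    exact (left_eq_mul.1 this)
  -- the subgroup of the torus
  let A : Subgroup (Fin r → Circle) :=
    { carrier := {z | ∃ h ∈ H, z = fun j => ξ j h}
      one_mem' := ⟨1, H.one_mem, by funext j; rw [hone]; rfl⟩
      mul_mem' := by
        rintro _ _ ⟨h, hh, rfl⟩ ⟨h', hh', rfl⟩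
        exact ⟨h * h', H.mul_mem hh hh', by funext j; rw [hmul j h hh h' hh']; rfl⟩
      inv_mem' := by
        rintro _ ⟨h, hh, rfl⟩
        refine ⟨h⁻¹, H.inv_mem hh, ?_⟩
        funext j
        have := hmul j h hh h⁻¹ (H.inv_mem hh)
        rw [mul_inv_cancel, hone] at this
        show (ξ j h)⁻¹ = ξ j h⁻¹
        exact inv_eq_of_mul_eq_one_right this.symm }
  by_cases htop : A.topologicalClosure = ⊤
  · exfalso
    set TT : Set (Fin r → ℂ) := ⋃ c ∈ s, T c with hTT
    have hTTc : IsCompact TT := s.isCompact_biUnion fun c _ => hTc c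
    have hsub : (A : Set (Fin r → Circle)) ⊆ emb ⁻¹' TT := by
      rintro _ ⟨h, hh, rfl⟩
      obtain ⟨c, hcC, hcH, hce⟩ := hcov h hh
      obtain ⟨d, hd, hcd⟩ := Set.mem_iUnion₂.1 (hsC hcC)
      refine Set.mem_iUnion₂.2 ⟨d, hd, ?_⟩
      have := hVT d c hcH hcd
      simpa only [hce] using this
    have hcl : closure (A : Set (Fin r → Circle)) ⊆ emb ⁻¹' TT :=
      closure_minimal hsub (hTTc.isClosed.preimage emb_cont)
    have hrange : Set.range (emb (r := r)) ⊆ TT := by
      rintro _ ⟨z, rfl⟩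
      apply hcl
      have : z ∈ A.topologicalClosure := by rw [htop]; trivial
      exact this
    have h1 := torus_dim TT hrange
    have h2 : dimH TT ≤ Module.finrank ℝ E := by
      rw [hTT, show (⋃ c ∈ s, T c) = ⋃ c ∈ (s : Set G), T c from rfl,
        dimH_bUnion s.countable_toSet]
      exact iSup₂_le fun c _ => hTd c
    have h3 : (r : ENNReal) ≤ Module.finrank ℝ E := h1.trans h2
    have h4 : r ≤ Module.finrank ℝ E := by exact_mod_cast h3
    omega
  · obtain ⟨t, ht, hrel⟩ := exists_relation A.topologicalClosure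
      A.isClosed_topologicalClosure htop
    refine ⟨t, ht, fun h hh => ?_⟩
    exact hrel (fun j => ξ j h) (A.le_topologicalClosure ⟨h, hh, rfl⟩)

end Pool.Agent.TH286.NC
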