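import Pool.Agent.TH296.NC.Defs2

set_option autoImplicit false

/-! Invariant positive functionals and invariant measures (job NC-S3). -/

open Filter Topology Finset MeasureTheory
open scoped commutatorElement Manifold ContDiff

namespace Pool.Agent.TH286.NC

open Pool.Agent.TH296.NC CompactlySupported

theorem exists_riesz {Y : Type*} [TopologicalSpace Y] [CompactSpace Y] [T2Space Y]
    [MeasurableSpace Y] [BorelSpace Y] (L : C(Y, ℝ) →ₗ[ℝ] ℝ)
    (hpos : ∀ φ : C(Y, ℝ), 0 ≤ φ → 0 ≤ L φ) :
    ∃ ν : Measure Y, IsFiniteMeasure ν ∧ ∀ φ : C(Y, ℝ), L φ = ∫ x, φ x ∂ν := by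
  let Λ : C_c(Y, ℝ) →ₚ[ℝ] ℝ := PositiveLinearMap.mk₀
    { toFun := fun f => L f.toContinuousMap
      map_add' := fun f g => by
        have : (f + g).toContinuousMap = f.toContinuousMap + g.toContinuousMap := by
          ext x; rfl
        rw [this, map_add]
      map_smul' := fun c f => by
        have : (c • f).toContinuousMap = c • f.toContinuousMap := by
          ext x; rfl
        rw [this, map_smul]; rfl }
    (fun f hf => hpos _ (by
      intro x
      exact hf x))
  refine ⟨RealRMK.rieszMeasure Λ, ?_, ?_⟩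
  · infer_instance
  · intro φ
    have h := RealRMK.integral_rieszMeasure Λ (CompactlySupportedContinuousMap.continuousMapEquiv φ)
    rw [show (∫ x, φ x ∂(RealRMK.rieszMeasure Λ)) =
      ∫ x, (CompactlySupportedContinuousMap.continuousMapEquiv φ) x ∂(RealRMK.rieszMeasure Λ)
      from rfl, h]
    rfl

theorem exists_invariant_measure {Y : Type*} [TopologicalSpace Y] [CompactSpace Y] [T2Space Y]
    [SecondCountableTopology Y] [MeasurableSpace Y] [BorelSpace Y] (T : Y ≃ₜ Y) (X : Set Y)
    (hX : IsClosed X) (L : C(Y, ℝ) →ₗ[ℝ] ℝ) (hpos : ∀ φ : C(Y, ℝ), 0 ≤ φ → 0 ≤ L φ)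
    (hone : L 1 = 1) (hinv : ∀ φ : C(Y, ℝ), L (φ.comp ⟨T, T.continuous⟩) = L φ)
    (hsupp : ∀ φ : C(Y, ℝ), (∀ x ∈ X, φ x = 0) → L φ = 0) :
    ∃ ν : Measure Y, IsProbabilityMeasure ν ∧ MeasurePreserving T ν ν ∧ ν Xᶜ = 0 ∧
      ∀ φ : C(Y, ℝ), L φ = ∫ x, φ x ∂ν := by
  obtain ⟨ν, hfin, hν⟩ := exists_riesz L hpos
  have := hfin
  have : TopologicalSpace.MetrizableSpace Y :=
    TopologicalSpace.metrizableSpace_of_t3_secondCountable Y
  let _ : MetricSpace Y := TopologicalSpace.metrizableSpaceMetric Y
  have hT : Measurable T := T.continuous.measurable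
  refine ⟨ν, ?_, ⟨hT, ?_⟩, ?_, hν⟩
  · refine ⟨?_⟩
    have h1 : (∫ x, (1 : C(Y, ℝ)) x ∂ν) = 1 := by rw [← hν, hone]
    have h2 : ν.real Set.univ = 1 := by
      simpa using h1
    rw [measureReal_def] at h2
    have h3 := (ENNReal.toReal_eq_one_iff _).1 h2
    exact h3
  · have : IsFiniteMeasure (Measure.map T ν) := inferInstance
    apply ext_of_forall_integral_eq_of_IsFiniteMeasure
    intro f
    rw [integral_map hT.aemeasurable f.continuous.aestronglyMeasurable]
    have := hinv f.toContinuousMap
    rw [hν, hν] at this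
    exact this
  · have hXne : X.Nonempty := by
      by_contra hne
      rw [Set.not_nonempty_iff_eq_empty] at hne
      have := hsupp 1 (by rw [hne]; simp)
      rw [hone] at this
      norm_num at this
    let φ : C(Y, ℝ) := ⟨fun x => min 1 (Metric.infDist x X),
      continuous_const.min (Metric.continuous_infDist_pt X)⟩
    have h0 : L φ = 0 := by
      apply hsupp
      intro x hx
      show min 1 (Metric.infDist x X) = 0
      rw [Metric.infDist_zero_of_mem hx]
      norm_num
    rw [hν] at h0
    have hnn : 0 ≤ᵐ[ν] fun x => φ x := Eventually.of_forall fun x =>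
      le_min zero_le_one Metric.infDist_nonneg
    have hint : Integrable (fun x => φ x) ν := by
      refine Integrable.of_bound φ.continuous.aestronglyMeasurable 1 ?_
      refine Eventually.of_forall fun x => ?_
      show ‖min 1 (Metric.infDist x X)‖ ≤ 1
      rw [Real.norm_of_nonneg (le_min zero_le_one Metric.infDist_nonneg)]
      exact min_le_left _ _
    have hae := (integral_eq_zero_iff_of_nonneg_ae hnn hint).1 h0
    refine measure_mono_null ?_ hae
    intro x hx hx0
    apply hx
    have hx1 : min 1 (Metric.infDist x X) = 0 := hx0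
    have hx2 : Metric.infDist x X = 0 := by
      rcases min_choice 1 (Metric.infDist x X) with h | h
      · rw [h] at hx1; norm_num at hx1
      · rw [h] at hx1; exact hx1
    exact (hX.mem_iff_infDist_zero hXne).2 hx2

end Pool.Agent.TH286.NC
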