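import Pool.Agent.TH296.NC.Defs2

set_option autoImplicit false

/-! Sandwiching an almost everywhere continuous function (job NC-S4). -/

open Filter Topology Finset MeasureTheory
open scoped commutatorElement Manifold ContDiff

namespace Pool.Agent.TH286.NC

open Pool.Agent.TH296.NC

namespace S4

section

variable {Y : Type*} [MetricSpace Y] (X : Set Y) (F : Y → ℝ)

/-- the upper Lipschitz envelope -/
noncomputable def env (n : ℕ) (x : Y) : ℝ := ⨆ y : X, (F y - n * dist x y)

variable {X F} {M : ℝ}

theorem bdd (hM : ∀ x, |F x| ≤ M) (n : ℕ) (x : Y) :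
    BddAbove (Set.range fun y : X => F y - n * dist x y) := by
  refine ⟨M, ?_⟩
  rintro _ ⟨y, rfl⟩
  have h1 := (abs_le.1 (hM y)).2
  have h2 : 0 ≤ (n : ℝ) * dist x y := by positivity
  show F y - n * dist x y ≤ M
  linarith

theorem le_env (hM : ∀ x, |F x| ≤ M) (n : ℕ) {x : Y} (hx : x ∈ X) : F x ≤ env X F n x := by
  have h : F x - n * dist x x ≤ env X F n x := le_ciSup (bdd (X := X) hM n x) ⟨x, hx⟩
  rwa [dist_self, mul_zero, sub_zero] at h

theorem env_le (hX : X.Nonempty) (hM : ∀ x, |F x| ≤ M) (n : ℕ) (x : Y) : env X F n x ≤ M := by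
  have : Nonempty X := hX.to_subtype
  apply ciSup_le
  intro y
  have h1 := (abs_le.1 (hM y)).2
  have h2 : 0 ≤ (n : ℝ) * dist x y := by positivity
  linarith

theorem env_sub_le (hX : X.Nonempty) (hM : ∀ x, |F x| ≤ M) (n : ℕ) (x x' : Y) :
    env X F n x ≤ env X F n x' + n * dist x x' := by
  have : Nonempty X := hX.to_subtype
  apply ciSup_le
  intro y
  have h1 := le_ciSup (bdd (X := X) hM n x') y
  have h2 : dist x' y ≤ dist x x' + dist x y := by
    rw [dist_comm x x']
    exact dist_triangle _ _ _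
  have h3 : (n : ℝ) * dist x' y ≤ n * (dist x x' + dist x y) :=
    mul_le_mul_of_nonneg_left h2 (Nat.cast_nonneg n)
  have h4 : F y - n * dist x' y ≤ env X F n x' := h1
  nlinarith

theorem env_continuous (hX : X.Nonempty) (hM : ∀ x, |F x| ≤ M) (n : ℕ) :
    Continuous (env X F n) := by
  have : LipschitzWith n (env X F n) := by
    apply LipschitzWith.of_le_add_mul
    intro x x'
    exact_mod_cast env_sub_le hX hM n x x'
  exact this.continuous

theorem env_tendsto (hX : X.Nonempty) (hM : ∀ x, |F x| ≤ M) {x : Y} (hx : x ∈ X)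
    (hF : ContinuousWithinAt F X x) : Tendsto (fun n => env X F n x) atTop (𝓝 (F x)) := by
  have : Nonempty X := hX.to_subtype
  rw [Metric.tendsto_atTop]
  intro η hη
  obtain ⟨δ, hδ, H⟩ := Metric.continuousWithinAt_iff.1 hF (η / 2) (half_pos hη)
  obtain ⟨N, hN⟩ := exists_nat_ge (2 * M / δ)
  refine ⟨N, fun n hn => ?_⟩
  have h1 := le_env hM n hx
  have h2 : env X F n x ≤ F x + η / 2 := by
    apply ciSup_le
    intro y
    by_cases hy : dist x (y : Y) < δ
    · have h3 := H y.2 (by rwa [dist_comm])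
      rw [Real.dist_eq] at h3
      have h4 := (abs_lt.1 h3).2
      have h5 : 0 ≤ (n : ℝ) * dist x y := by positivity
      linarith
    · push Not at hy
      have h3 : 2 * M / δ ≤ n := hN.trans (by exact_mod_cast hn)
      have h4 : 2 * M ≤ n * dist x y := by
        have h6 : 2 * M ≤ n * δ := by
          rwa [div_le_iff₀ hδ] at h3
        exact h6.trans (mul_le_mul_of_nonneg_left hy (Nat.cast_nonneg n))
      have h5 := (abs_le.1 (hM y)).2
      have h6 := (abs_le.1 (hM x)).1
      linarith
  rw [Real.dist_eq, abs_lt]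
  constructor <;> linarith

end

end S4

open S4

theorem exists_sandwich {Y : Type*} [TopologicalSpace Y] [CompactSpace Y] [T2Space Y]
    [SecondCountableTopology Y] [MeasurableSpace Y] [BorelSpace Y] (X : Set Y) (hX : IsClosed X)
    (ν : Measure Y) [IsFiniteMeasure ν] (hν : ν Xᶜ = 0) (F : Y → ℝ) (M : ℝ)
    (hM : ∀ x, |F x| ≤ M) (hF : ∀ᵐ x ∂ν, ContinuousWithinAt F X x) (ε : ℝ) (hε : 0 < ε) :
    ∃ φ₁ φ₂ : C(Y, ℝ), (∀ x ∈ X, φ₁ x ≤ F x ∧ F x ≤ φ₂ x) ∧ ∫ x, (φ₂ x - φ₁ x) ∂ν ≤ ε := by
  have : TopologicalSpace.MetrizableSpace Y :=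
    TopologicalSpace.metrizableSpace_of_t3_secondCountable Y
  let _ : MetricSpace Y := TopologicalSpace.metrizableSpaceMetric Y
  rcases X.eq_empty_or_nonempty with hXe | hXne
  · refine ⟨0, 0, by simp [hXe], ?_⟩
    simpa using hε.le
  have hM' : ∀ x, |(-F) x| ≤ M := fun x => by simpa using hM x
  have hae : ∀ᵐ x ∂ν, x ∈ X := by
    rw [ae_iff]
    exact hν
  have hlim : Tendsto (fun n => ∫ x, (env X F n x + env X (-F) n x) ∂ν) atTop
      (𝓝 (∫ _, (0 : ℝ) ∂ν)) := by
    apply tendsto_integral_of_dominated_convergence (fun _ => 2 * M)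
    · intro n
      exact ((env_continuous hXne hM n).add (env_continuous hXne hM' n)).aestronglyMeasurable
    · exact integrable_const _
    · intro n
      filter_upwards [hae] with x hx
      have h1 := le_env hM n hx
      have h2 := le_env hM' n hx
      have h3 := env_le hXne hM n x
      have h4 := env_le hXne hM' n x
      have h5 : (-F) x = - F x := rfl
      rw [h5] at h2
      rw [Real.norm_eq_abs, abs_le]
      constructor <;> linarith
    · filter_upwards [hae, hF] with x hx hFx
      have h1 := env_tendsto hXne hM hx hFx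
      have h2 := env_tendsto hXne hM' hx hFx.neg
      have h3 := h1.add h2
      have h5 : (-F) x = - F x := rfl
      rw [h5, add_neg_cancel] at h3
      exact h3
  rw [integral_zero] at hlim
  obtain ⟨n, hn⟩ := (hlim.eventually (gt_mem_nhds hε)).exists
  refine ⟨⟨fun x => - env X (-F) n x, (env_continuous hXne hM' n).neg⟩,
    ⟨fun x => env X F n x, env_continuous hXne hM n⟩, ?_, ?_⟩
  · intro x hx
    have h1 := le_env hM n hx
    have h2 := le_env hM' n hx
    have h5 : (-F) x = - F x := rfl
    rw [h5] at h2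
    refine ⟨?_, h1⟩
    show - env X (-F) n x ≤ F x
    linarith
  · refine le_of_eq_of_le ?_ hn.le
    apply integral_congr_ae
    refine Eventually.of_forall fun x => ?_
    show env X F n x - (- env X (-F) n x) = env X F n x + env X (-F) n x
    ring

end Pool.Agent.TH286.NC
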